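import Pool.Agent.Y957.VK.Triv
import Pool.Agent.Y331.VK.Lin
import Pool.Agent.Y235.VK.Hol
import Pool.Agent.Y950.VK.Cnt
import Pool.Agent.Y911.VK.Cond
import Pool.Agent.Y901.VK.Vmvt
import Pool.Agent.Y309.VK.DA
import Pool.Agent.Y93.VK.DB
import Pool.Agent.Y331.VK.WB

/-!
Bilinear Weyl sums whose top coefficient is a multiple of a number of finite type.
-/

set_option autoImplicit false

namespace Pool.Agent.X121.AB

open Finset Pool.Agent.Y957.VK

theorem cnt_all : S_CNT := Pool.Agent.Y950.VK.cnt Pool.Agent.Y331.VK.lin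

theorem rec_all : S_REC := rec_of Pool.Agent.Y235.VK.hol cnt_all

theorem dbl_all : S_DBL := dbl_of Pool.Agent.Y309.VK.da Pool.Agent.Y93.VK.db

theorem dz_nonneg (θ : ℝ) : 0 ≤ dz θ := abs_nonneg _

theorem dz_sub (a b : ℝ) : dz (a - b) ≤ dz a + dz b := by
  unfold dz
  calc |a - b - round (a - b)| ≤ |a - b - ((round a - round b : ℤ) : ℝ)| := round_le _ _
    _ = |(a - round a) - (b - round b)| := by push_cast; congr 1; ring
    _ ≤ |a - round a| + |b - round b| := abs_sub _ _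

theorem mn_le_of (V : ℕ) {θ δ : ℝ} (hδ : 0 < δ) (h : δ / 2 ≤ dz θ) : mn V θ ≤ 1 / δ := by
  have h0 : 0 < dz θ := lt_of_lt_of_le (by positivity) h
  unfold mn
  rw [if_neg h0.ne']
  refine (min_le_right _ _).trans ?_
  apply one_div_le_one_div_of_le hδ
  linarith

/-- the sum over a block of `U` consecutive multiples -/
theorem block_le (V : ℕ) (a : ℝ) {U : ℕ} {δ : ℝ} (hδ : 0 < δ)
    (hsep : ∀ w : ℤ, w ≠ 0 → |w| < U → δ ≤ dz (a * w)) (t : ℤ) (S : Finset ℤ)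
    (hS : S ⊆ Finset.Ico (t * U) (t * U + U)) :
    ∑ u ∈ S, mn V (a * u) ≤ (2 * V + 1) + U / δ := by
  classical
  rw [← Finset.sum_filter_add_sum_filter_not S (fun u : ℤ => dz (a * u) < δ / 2)]
  refine add_le_add ?_ ?_
  · have hc : (S.filter (fun u : ℤ => dz (a * u) < δ / 2)).card ≤ 1 := by
      rw [Finset.card_le_one]
      intro u hu u' hu'
      by_contra hne
      rw [Finset.mem_filter] at hu hu'
      have h1 := Finset.mem_Ico.1 (hS hu.1)
      have h2 := Finset.mem_Ico.1 (hS hu'.1)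
      have h3 := hsep (u - u') (sub_ne_zero.2 hne) (by rw [abs_lt]; constructor <;> omega)
      have h4 := dz_sub (a * u) (a * u')
      have h5 : a * ((u - u' : ℤ) : ℝ) = a * u - a * u' := by push_cast; ring
      rw [h5] at h3
      linarith [hu.2, hu'.2]
    calc _ ≤ ∑ u ∈ S.filter (fun u : ℤ => dz (a * u) < δ / 2), (2 * (V : ℝ) + 1) :=
          Finset.sum_le_sum fun u _ => Pool.Agent.Y331.VK.mn_le V _
      _ = ((S.filter (fun u : ℤ => dz (a * u) < δ / 2)).card : ℝ) * (2 * (V : ℝ) + 1) := by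
          rw [Finset.sum_const, nsmul_eq_mul]
      _ ≤ 1 * (2 * (V : ℝ) + 1) := by
          have : ((S.filter (fun u : ℤ => dz (a * u) < δ / 2)).card : ℝ) ≤ 1 := by exact_mod_cast hc
          gcongr
      _ = _ := one_mul _
  · calc _ ≤ ∑ u ∈ S.filter (fun u : ℤ => ¬ dz (a * u) < δ / 2), 1 / δ :=
          Finset.sum_le_sum fun u hu => mn_le_of V hδ (not_lt.1 (Finset.mem_filter.1 hu).2)
      _ = ((S.filter (fun u : ℤ => ¬ dz (a * u) < δ / 2)).card : ℝ) * (1 / δ) := by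
          rw [Finset.sum_const, nsmul_eq_mul]
      _ ≤ (U : ℝ) * (1 / δ) := by
          have h1 : (S.filter (fun u : ℤ => ¬ dz (a * u) < δ / 2)).card ≤ U := by
            refine (Finset.card_filter_le _ _).trans ((Finset.card_le_card hS).trans ?_)
            rw [Int.card_Ico]
            omega
          have : ((S.filter (fun u : ℤ => ¬ dz (a * u) < δ / 2)).card : ℝ) ≤ U := by exact_mod_cast h1
          gcongr
      _ = _ := by ring

/-- the factor `WJ` for a coefficient whose multiples are separated -/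
theorem WJ_le (s M j : ℕ) (a : ℝ) {U : ℕ} (hU : 1 ≤ U) (hUV : U ≤ s * M ^ j) {δ : ℝ} (hδ : 0 < δ)
    (hsep : ∀ w : ℤ, w ≠ 0 → |w| < U → δ ≤ dz (a * w)) :
    WJ s M j a ≤ 4 * (s * M ^ j : ℕ) / U * ((2 * (s * M ^ j : ℕ) + 1) + U / δ) := by
  classical
  unfold WJ
  set V := s * M ^ j with hV
  have hU0 : (0 : ℝ) < U := by exact_mod_cast hU
  have hmaps : ∀ u ∈ Finset.Icc (-(V : ℤ)) (V : ℤ),
      u / (U : ℤ) ∈ Finset.Icc ((-(V : ℤ)) / U) ((V : ℤ) / U) := by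
    intro u hu
    rw [Finset.mem_Icc] at hu ⊢
    exact ⟨Int.ediv_le_ediv (by exact_mod_cast hU) hu.1, Int.ediv_le_ediv (by exact_mod_cast hU) hu.2⟩
  rw [← Finset.sum_fiberwise_of_maps_to hmaps]
  have hX : 0 ≤ (2 * (V : ℝ) + 1) + U / δ := by positivity
  have hcard : ((Finset.Icc ((-(V : ℤ)) / U) ((V : ℤ) / U)).card : ℝ) ≤ 4 * V / U := by
    rw [Int.card_Icc]
    have h1 : ((V : ℤ) / (U : ℤ) + 1 - (-(V : ℤ)) / U).toNat = ((V : ℤ) / (U : ℤ) + 1 - (-(V : ℤ)) / U) := by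
      rw [Int.toNat_of_nonneg]
      have : (-(V : ℤ)) / (U : ℤ) ≤ (V : ℤ) / (U : ℤ) :=
        Int.ediv_le_ediv (by exact_mod_cast hU) (by omega)
      omega
    have h2 : ((((V : ℤ) / (U : ℤ) + 1 - (-(V : ℤ)) / U).toNat : ℕ) : ℝ) =
        (((V : ℤ) / (U : ℤ) + 1 - (-(V : ℤ)) / U : ℤ) : ℝ) := by
      exact_mod_cast congrArg (Int.cast : ℤ → ℝ) h1
    rw [h2]
    have h3 : (((V : ℤ) / (U : ℤ) : ℤ) : ℝ) ≤ V / U := by
      rw [le_div_iff₀ hU0]
      have := Int.ediv_mul_le (V : ℤ) (b := (U : ℤ)) (by omega)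
      exact_mod_cast this
    have h4 : -(V / U : ℝ) - 1 ≤ (((-(V : ℤ)) / (U : ℤ) : ℤ) : ℝ) := by
      have h5 := Int.lt_ediv_add_one_mul_self (-(V : ℤ)) (b := (U : ℤ)) (by omega)
      have h6 : (-(V : ℝ)) < ((((-(V : ℤ)) / (U : ℤ) : ℤ) : ℝ) + 1) * U := by exact_mod_cast h5
      have h7 : -(V / U : ℝ) < (((-(V : ℤ)) / (U : ℤ) : ℤ) : ℝ) + 1 := by
        rw [← neg_div, div_lt_iff₀ hU0]
        exact h6
      linarith
    have h5 : (1 : ℝ) ≤ V / U := by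
      rw [le_div_iff₀ hU0, one_mul]
      exact_mod_cast hUV
    push_cast
    have h6 : 4 * (V : ℝ) / U = V / U + V / U + V / U + V / U := by ring
    rw [h6]
    linarith
  calc _ ≤ ∑ t ∈ Finset.Icc ((-(V : ℤ)) / U) ((V : ℤ) / U), ((2 * (V : ℝ) + 1) + U / δ) := by
        refine Finset.sum_le_sum fun t _ => ?_
        refine block_le V a hδ hsep t _ ?_
        intro u hu
        rw [Finset.mem_filter] at hu
        rw [Finset.mem_Ico]
        have h1 := Int.ediv_mul_le u (b := (U : ℤ)) (by omega)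
        have h2 := Int.lt_ediv_add_one_mul_self u (b := (U : ℤ)) (by omega)
        rw [hu.2] at h1 h2
        constructor
        · exact h1
        · linarith
    _ = ((Finset.Icc ((-(V : ℤ)) / U) ((V : ℤ) / U)).card : ℝ) * ((2 * (V : ℝ) + 1) + U / δ) := by
        rw [Finset.sum_const, nsmul_eq_mul]
    _ ≤ _ := by gcongr

/-- numbers of finite type -/
def FT (x c : ℝ) (τ : ℕ) : Prop := ∀ q : ℤ, q ≠ 0 → c / |(q : ℝ)| ^ τ ≤ dz (x * q)

/-- the factor of the top coefficient -/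
theorem WJ_top {x c : ℝ} {τ : ℕ} (hc : 0 < c) (hc1 : c ≤ 1) (hx : FT x c τ) {h : ℤ} (hh : h ≠ 0)
    (s M j L : ℕ) (hL : 1 ≤ L) (hLM : L ^ (τ + 1) ≤ s * M ^ j) :
    WJ s M j (x * h) ≤ (2 * (s * M ^ j : ℕ) + 1) ^ 2 * (3 * |(h : ℝ)| ^ τ / (c * L)) := by
  have hL0 : (0 : ℝ) < L := by exact_mod_cast hL
  have hh1 : (1 : ℝ) ≤ |(h : ℝ)| := by
    have := Int.one_le_abs hh
    exact_mod_cast this
  have hh0 : (0 : ℝ) < |(h : ℝ)| := by linarith
  have hLV : L ≤ s * M ^ j := (Nat.le_self_pow (by omega) L).trans hLM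
  have h1 := WJ_le s M j (x * h) hL hLV (δ := c / (|(h : ℝ)| * L) ^ τ) (by positivity) (by
    intro w hw hwL
    have h2 := hx (h * w) (mul_ne_zero hh hw)
    have h3 : x * ((h * w : ℤ) : ℝ) = x * h * w := by push_cast; ring
    rw [h3] at h2
    refine le_trans ?_ h2
    have hw0 : (0 : ℝ) < |(w : ℝ)| := by
      have : (w : ℝ) ≠ 0 := by exact_mod_cast hw
      exact abs_pos.2 this
    have hwL' : |(w : ℝ)| ≤ L := by
      have : ((|w| : ℤ) : ℝ) ≤ ((L : ℤ) : ℝ) := by exact_mod_cast hwL.le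
      simpa using this
    apply div_le_div_of_nonneg_left hc.le
    · have : (0 : ℝ) < |((h * w : ℤ) : ℝ)| := by
        push_cast
        rw [abs_mul]
        positivity
      positivity
    · push_cast
      rw [abs_mul]
      gcongr)
  refine h1.trans ?_
  set V := s * M ^ j with hV
  have hV1 : (L : ℝ) ^ (τ + 1) ≤ V := by exact_mod_cast hLM
  have hVL : (L : ℝ) ^ τ ≤ V / L := by
    rw [le_div_iff₀ hL0, ← pow_succ]
    exact hV1
  have e1 : (L : ℝ) / (c / (|(h : ℝ)| * L) ^ τ) = L * (|(h : ℝ)| ^ τ * (L : ℝ) ^ τ) / c := by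
    rw [mul_pow]
    field_simp
  rw [e1]
  have hH : (1 : ℝ) ≤ |(h : ℝ)| ^ τ := one_le_pow₀ hh1
  have hV0 : (0 : ℝ) ≤ V := Nat.cast_nonneg V
  have h2 : 4 * (V : ℝ) / L * (L * (|(h : ℝ)| ^ τ * (L : ℝ) ^ τ) / c) ≤
      4 * V ^ 2 * (|(h : ℝ)| ^ τ / (c * L)) := by
    calc _ = 4 * (V : ℝ) * |(h : ℝ)| ^ τ / c * (L : ℝ) ^ τ := by field_simp
      _ ≤ 4 * (V : ℝ) * |(h : ℝ)| ^ τ / c * (V / L) := by gcongr
      _ = _ := by field_simp
  have h3 : 4 * (V : ℝ) / L * (2 * V + 1) ≤ 2 * (2 * V + 1) ^ 2 * (|(h : ℝ)| ^ τ / (c * L)) := by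
    have h4 : 1 / (L : ℝ) ≤ |(h : ℝ)| ^ τ / (c * L) := by
      rw [div_le_div_iff₀ hL0 (by positivity)]
      have : c * L ≤ |(h : ℝ)| ^ τ * L := by
        apply mul_le_mul_of_nonneg_right _ hL0.le
        linarith
      linarith
    calc 4 * (V : ℝ) / L * (2 * V + 1) = (4 * V * (2 * V + 1)) * (1 / L) := by ring
      _ ≤ (2 * (2 * V + 1) ^ 2) * (|(h : ℝ)| ^ τ / (c * L)) := by
          apply mul_le_mul _ h4 (by positivity) (by positivity)
          nlinarith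
      _ = _ := by ring
  have h4 : 4 * (V : ℝ) ^ 2 * (|(h : ℝ)| ^ τ / (c * L)) ≤
      (2 * V + 1) ^ 2 * (|(h : ℝ)| ^ τ / (c * L)) := by
    apply mul_le_mul_of_nonneg_right _ (by positivity)
    nlinarith
  calc _ = 4 * (V : ℝ) / L * (2 * V + 1) + 4 * (V : ℝ) / L * (L * (|(h : ℝ)| ^ τ * (L : ℝ) ^ τ) / c) := by
        ring
    _ ≤ 2 * (2 * V + 1) ^ 2 * (|(h : ℝ)| ^ τ / (c * L)) + (2 * V + 1) ^ 2 * (|(h : ℝ)| ^ τ / (c * L)) :=
        add_le_add h3 (h2.trans h4)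
    _ = _ := by ring

end Pool.Agent.X121.AB
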