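import Pool.Agent.X121.AB.Mom

set_option autoImplicit false

namespace Pool.Agent.X121.AB

open Finset Pool.Agent.Y957.VK Filter Polynomial
open Pool.Agent.Y93.VK (ee)

/-- the exponential sum of the first `N` digits -/
noncomputable def SS' (x : ℝ) (h N b : ℕ) : ℝ := ‖∑ i ∈ Finset.Icc 1 N, ee (h * (x * (b : ℝ) ^ i))‖

/-- the order of the moment -/
noncomputable def kk (a : ℝ) (N : ℕ) : ℕ := ⌈a * Real.log N⌉₊ + 1

/-- the threshold -/
noncomputable def TT' (a : ℝ) (N : ℕ) : ℝ := √(3 * kk a N * N)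

theorem kk_le {a : ℝ} (ha : 0 ≤ a) {N : ℕ} (hN : 1 ≤ N) : (kk a N : ℝ) ≤ a * Real.log N + 2 := by
  unfold kk
  have hl : 0 ≤ Real.log N := Real.log_nonneg (by exact_mod_cast hN)
  have := Nat.ceil_lt_add_one (mul_nonneg ha hl)
  push_cast
  linarith

theorem kk_ge (a : ℝ) (N : ℕ) : a * Real.log N ≤ kk a N := by
  unfold kk
  have := Nat.le_ceil (a * Real.log N)
  push_cast
  linarith

/-- the number of exceptions for given `N`, `h` -/
theorem bad_card {x : ℝ} {a : ℝ} {N h B : ℕ} (B₀ : ℕ) (hN : 1 ≤ N) (hh : 1 ≤ h) {Λ W : ℝ} (hW0 : 0 ≤ W)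
    (hw : ∀ Q : ℤ[X], 1 ≤ Q.natDegree → (Q.natDegree : ℝ) ≤ N → |(Q.leadingCoeff : ℝ)| ≤ Λ →
      ‖∑ b ∈ Finset.Icc 1 B, ee (x * ((Q.eval (b : ℤ) : ℤ) : ℝ))‖ ≤ W)
    (hk : (h : ℝ) * kk a N ≤ Λ) :
    (((Finset.Icc 1 B).filter fun b => TT' a N ≤ SS' x h N (b + B₀)).card : ℝ) ≤
      B * (N : ℝ) ^ (-a) + (N : ℝ) ^ (kk a N) * W := by
  obtain ⟨k, hkd⟩ : ∃ k : ℕ, k = kk a N := ⟨_, rfl⟩
  have hk1 : 1 ≤ k := by rw [hkd]; unfold kk; omega
  have hk0 : (0 : ℝ) < k := by exact_mod_cast hk1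
  have hN0 : (0 : ℝ) < N := by exact_mod_cast hN
  have hT0 : 0 < TT' a N := by
    unfold TT'
    rw [← hkd]
    exact Real.sqrt_pos.2 (by positivity)
  rw [← hkd] at hk
  have h1 := moment x N k h B B₀ hW0 (fun f hf g hg hne => weyl_Qp hh hw hk f hf g hg hne)
  have h2 := markov (Finset.Icc 1 B) (fun b => SS' x h N (b + B₀)) (fun b => norm_nonneg _) hT0 k h1
  refine h2.trans ?_
  have hT2 : TT' a N ^ (2 * k) = (3 * k * N : ℝ) ^ k := by
    unfold TT'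
    rw [← hkd, pow_mul, Real.sq_sqrt (by positivity)]
  rw [hT2, add_div]
  have hfac : (k.factorial : ℝ) ≤ (k : ℝ) ^ k := by exact_mod_cast Nat.factorial_le_pow k
  refine add_le_add ?_ ?_
  · rw [div_le_iff₀ (by positivity)]
    have h3 : (N : ℝ) ^ (-a) * (3 : ℝ) ^ k ≥ 1 := by
      have h4 : (N : ℝ) ^ (-a) = Real.exp (-(a * Real.log N)) := by
        rw [Real.rpow_def_of_pos hN0]
        congr 1
        ring
      have h5 : Real.exp (k : ℝ) ≤ (3 : ℝ) ^ k := by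
        rw [← Real.exp_one_pow]
        exact pow_le_pow_left₀ (Real.exp_nonneg _) (by linarith [Real.exp_one_lt_d9]) k
      have h6 : a * Real.log N ≤ k := by rw [hkd]; exact kk_ge a N
      rw [h4]
      calc (1 : ℝ) = Real.exp (-(a * Real.log N)) * Real.exp (a * Real.log N) := by
            rw [← Real.exp_add]; simp
        _ ≤ Real.exp (-(a * Real.log N)) * Real.exp (k : ℝ) := by
            gcongr
        _ ≤ Real.exp (-(a * Real.log N)) * (3 : ℝ) ^ k := by gcongr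
    push_cast
    have h7 : (3 * k * N : ℝ) ^ k = 3 ^ k * (k : ℝ) ^ k * (N : ℝ) ^ k := by
      rw [mul_pow, mul_pow]
    rw [h7]
    calc (k.factorial : ℝ) * (N : ℝ) ^ k * B ≤ ((k : ℝ) ^ k * (N : ℝ) ^ k * B) * 1 := by
          rw [mul_one]; gcongr
      _ ≤ ((k : ℝ) ^ k * (N : ℝ) ^ k * B) * ((N : ℝ) ^ (-a) * (3 : ℝ) ^ k) := by
          gcongr
      _ = _ := by ring
  · rw [div_le_iff₀ (by positivity)]
    have h7 : (N : ℝ) ^ k ≤ (3 * k * N : ℝ) ^ k := by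
      apply pow_le_pow_left₀ hN0.le
      have : (1 : ℝ) ≤ 3 * k := by
        have : (1 : ℝ) ≤ k := by exact_mod_cast hk1
        linarith
      nlinarith
    rw [← hkd]
    calc (N : ℝ) ^ (2 * k) * W = (N : ℝ) ^ k * W * (N : ℝ) ^ k := by ring
      _ ≤ (N : ℝ) ^ k * W * (3 * k * N : ℝ) ^ k := by gcongr

/-- the discrepancy of the first `N` fractional parts is large -/
def BadN (x C : ℝ) (N b : ℕ) : Prop := ∃ u v : ℝ, 0 ≤ u ∧ u ≤ v ∧ v ≤ 1 ∧
  C * √(N * Real.log (N + 1) ^ 3) <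
    |(((Finset.Icc 1 N).filter fun i => u ≤ Int.fract (x * (b : ℝ) ^ i) ∧
      Int.fract (x * (b : ℝ) ^ i) < v).card : ℝ) - (v - u) * N|

theorem log_two_bd : (2 : ℝ) / 3 ≤ Real.log 2 := by linarith [Real.log_two_gt_d9]

theorem not_bad {x a : ℝ} (ha : 0 ≤ a) {N b : ℕ} (hN : 1 ≤ N)
    (h : ∀ n ∈ Finset.Icc 1 N, SS' x n N b < TT' a N) {C : ℝ}
    (hC : 2 * (2 + 5 / 2 * √(3 * (a + 3))) ≤ C) : ¬ BadN x C N b := by
  rintro ⟨u, v, hu, huv, hv, hlt⟩
  have hN0 : (1 : ℝ) ≤ N := by exact_mod_cast hN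
  have hT0 : 0 ≤ TT' a N := Real.sqrt_nonneg _
  have h1 := erdos_turan (fun i => x * (b : ℝ) ^ i) hN (T := TT' a N)
    (fun n hn1 hn2 => (h n (Finset.mem_Icc.2 ⟨hn1, hn2⟩)).le) hT0 hu huv hv
  obtain ⟨ℓ, hℓ⟩ : ∃ ℓ : ℝ, ℓ = Real.log (N + 1) := ⟨_, rfl⟩
  rw [← hℓ] at hlt
  have hℓ1 : 2 / 3 ≤ ℓ := by
    rw [hℓ]
    refine log_two_bd.trans ?_
    exact Real.log_le_log (by norm_num) (by linarith)
  have hlog : Real.log N ≤ ℓ := by
    rw [hℓ]
    exact Real.log_le_log (by linarith) (by linarith)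
  have hlog0 : 0 ≤ Real.log N := Real.log_nonneg hN0
  -- comparison of the terms
  have e1 : √(N : ℝ) ≤ 2 * √(N * ℓ ^ 3) := by
    have h2 : (2 : ℝ) * √(N * ℓ ^ 3) = √(4 * (N * ℓ ^ 3)) := by
      have h4 : √(4 : ℝ) = 2 := by
        rw [show (4 : ℝ) = 2 ^ 2 by norm_num, Real.sqrt_sq (by norm_num)]
      rw [Real.sqrt_mul (by norm_num : (0 : ℝ) ≤ 4) (N * ℓ ^ 3), h4]
    rw [h2]
    apply Real.sqrt_le_sqrt
    have h3 : (2 / 3 : ℝ) ^ 3 ≤ ℓ ^ 3 := pow_le_pow_left₀ (by norm_num) hℓ1 3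
    nlinarith
  have e2 : TT' a N ≤ √(3 * (a + 3)) * √(N * ℓ) := by
    unfold TT'
    rw [← Real.sqrt_mul (by positivity)]
    apply Real.sqrt_le_sqrt
    have h2 := kk_le ha hN
    have h3 : (kk a N : ℝ) ≤ (a + 3) * ℓ := by nlinarith
    calc 3 * (kk a N : ℝ) * N ≤ 3 * ((a + 3) * ℓ) * N := by gcongr
      _ = _ := by ring
  have e3 : √(N * ℓ) * (1 + Real.log N) ≤ 5 / 2 * √(N * ℓ ^ 3) := by
    have h2 : √((N : ℝ) * ℓ ^ 3) = √(N * ℓ) * ℓ := by
      rw [show (N : ℝ) * ℓ ^ 3 = (N * ℓ) * ℓ ^ 2 by ring, Real.sqrt_mul (by positivity),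
        Real.sqrt_sq (by linarith)]
    rw [h2]
    have h3 : 0 ≤ √((N : ℝ) * ℓ) := Real.sqrt_nonneg _
    nlinarith
  have e4 : TT' a N * (1 + Real.log N) ≤ 5 / 2 * √(3 * (a + 3)) * √(N * ℓ ^ 3) := by
    calc TT' a N * (1 + Real.log N) ≤ (√(3 * (a + 3)) * √(N * ℓ)) * (1 + Real.log N) := by gcongr
      _ = √(3 * (a + 3)) * (√(N * ℓ) * (1 + Real.log N)) := by ring
      _ ≤ √(3 * (a + 3)) * (5 / 2 * √(N * ℓ ^ 3)) := by gcongr
      _ = _ := by ring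
  have h5 : 2 * (√(N : ℝ) + TT' a N * (1 + Real.log N)) ≤ C * √(N * ℓ ^ 3) := by
    calc _ ≤ 2 * (2 * √(N * ℓ ^ 3) + 5 / 2 * √(3 * (a + 3)) * √(N * ℓ ^ 3)) := by linarith
      _ = (2 * (2 + 5 / 2 * √(3 * (a + 3)))) * √(N * ℓ ^ 3) := by ring
      _ ≤ _ := by gcongr
  linarith

theorem sum_inv_sq (K : ℕ) : ∑ N ∈ Finset.Icc 1 K, 1 / (N : ℝ) ^ 2 ≤ 2 := by
  rcases Nat.eq_zero_or_pos K with rfl | hK
  · simp
  · rw [show Finset.Icc 1 K = Finset.Ioc 0 K from rfl,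
      ← Finset.sum_Ioc_consecutive _ (Nat.zero_le 1) hK]
    have h1 := sum_Ioc_inv_sq_le_sub (α := ℝ) (k := 1) (n := K) one_ne_zero hK
    have h2 : ∑ i ∈ Finset.Ioc (0 : ℕ) 1, 1 / (i : ℝ) ^ 2 = 1 := by simp
    rw [h2]
    have h3 : ∑ i ∈ Finset.Ioc 1 K, 1 / (i : ℝ) ^ 2 = ∑ i ∈ Finset.Ioc 1 K, ((i : ℝ) ^ 2)⁻¹ :=
      Finset.sum_congr rfl fun i _ => one_div _
    rw [h3]
    have h4 : (0 : ℝ) ≤ (K : ℝ)⁻¹ := by positivity
    norm_num at h1
    linarith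

/-- the range of the theorem -/
theorem numeric (a : ℝ) (ha : 0 ≤ a) : ∀ᶠ z : ℝ in atTop, ∀ N : ℕ, 1 ≤ N → (N : ℝ) ≤ z →
    (N : ℝ) * kk a N ≤ z ^ 7 ∧ (N : ℝ) ^ (kk a N) * Real.exp (-(z ^ 2)) ≤ (N : ℝ) ^ (-a) := by
  filter_upwards [eventually_ge_atTop (5 * a + 2)] with z hz
  intro N hN hNz
  have hN0 : (1 : ℝ) ≤ N := by exact_mod_cast hN
  have hz1 : 1 ≤ z := hN0.trans hNz
  have hlog0 : 0 ≤ Real.log N := Real.log_nonneg hN0
  have hlogN : Real.log N ≤ N - 1 := Real.log_le_sub_one_of_pos (by linarith)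
  have hk := kk_le ha hN
  have hk2 : (kk a N : ℝ) ≤ (a + 2) * z := by nlinarith
  constructor
  · calc (N : ℝ) * kk a N ≤ z * ((a + 2) * z) := mul_le_mul hNz hk2 (Nat.cast_nonneg _) (by linarith)
      _ ≤ z * ((2 * z) * z) := by
          have : a + 2 ≤ 2 * z := by linarith
          gcongr
      _ = 2 * z ^ 3 := by ring
      _ ≤ z ^ 7 := by
          have h2 : (2 : ℝ) ≤ z := by linarith
          have h3 : (2 : ℝ) ^ 4 ≤ z ^ 4 := pow_le_pow_left₀ (by norm_num) h2 4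
          have h4 : z ^ 7 = z ^ 4 * z ^ 3 := by ring
          rw [h4]
          have h5 : (0 : ℝ) ≤ z ^ 3 := by positivity
          nlinarith
  · have e1 : (N : ℝ) ^ (kk a N) = Real.exp (kk a N * Real.log N) := by
      rw [← Real.rpow_natCast, Real.rpow_def_of_pos (by linarith)]
      congr 1
      ring
    have e2 : (N : ℝ) ^ (-a) = Real.exp (-(a * Real.log N)) := by
      rw [Real.rpow_def_of_pos (by linarith)]
      congr 1
      ring
    rw [e1, e2, ← Real.exp_add]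
    apply Real.exp_le_exp.2
    have hsq : Real.log N ^ 2 ≤ 4 * N := by
      have h1 : Real.log N = 2 * Real.log √(N : ℝ) := by
        rw [Real.log_sqrt (by linarith)]; ring
      have h2 : Real.log √(N : ℝ) ≤ √(N : ℝ) - 1 :=
        Real.log_le_sub_one_of_pos (Real.sqrt_pos.2 (by linarith))
      have h3 : 0 ≤ Real.log √(N : ℝ) := Real.log_nonneg (Real.one_le_sqrt.2 hN0)
      have h4 : √(N : ℝ) * √(N : ℝ) = N := Real.mul_self_sqrt (by linarith)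
      rw [h1]
      nlinarith
    have h5 : (kk a N : ℝ) * Real.log N ≤ a * (4 * N) + 2 * N := by
      calc (kk a N : ℝ) * Real.log N ≤ (a * Real.log N + 2) * Real.log N := by gcongr
        _ = a * Real.log N ^ 2 + 2 * Real.log N := by ring
        _ ≤ a * (4 * N) + 2 * N := by
            have := mul_le_mul_of_nonneg_left hsq ha
            linarith
    have h6 : a * Real.log N ≤ a * N := mul_le_mul_of_nonneg_left (by linarith) ha
    have h7 : (5 * a + 2) * (N : ℝ) ≤ z * z := mul_le_mul hz hNz (by linarith) (by linarith)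
    nlinarith

open Classical in
/-- large `B` -/
theorem main_large {x c : ℝ} {τ : ℕ} (hc : 0 < c) (hc1 : c ≤ 1) (hx : FT x c τ) {A C : ℝ} (hA : 0 ≤ A)
    (hC : 2 * (2 + 5 / 2 * √(3 * ((A + 3) + 3))) ≤ C) :
    ∀ᶠ B : ℕ in atTop, ∀ B' N₁ : ℕ, 1 ≤ N₁ →
      (((Finset.Icc 1 B).filter fun b => ∃ N : ℕ, N₁ ≤ N ∧ (N : ℝ) ≤ (Real.log B) ^ (1 / 7 : ℝ) ∧
        BadN x C N (b + B')).card : ℝ) ≤ 4 * (N₁ : ℝ) ^ (-A) * B := by
  have h1 : Tendsto (fun B : ℕ => (Real.log B) ^ (1 / 7 : ℝ)) atTop atTop :=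
    (tendsto_rpow_atTop (by norm_num)).comp (Real.tendsto_log_atTop.comp tendsto_natCast_atTop_atTop)
  filter_upwards [weyl hc hc1 hx, h1.eventually (numeric (A + 3) (by linarith)),
    eventually_ge_atTop 1] with B hB1 hB2 hB3
  intro B' N₁ hN₁
  have hlog : 0 ≤ Real.log B := Real.log_nonneg (by exact_mod_cast hB3)
  obtain ⟨z, hz⟩ : ∃ z : ℝ, z = (Real.log B) ^ (1 / 7 : ℝ) := ⟨_, rfl⟩
  have hz0 : 0 ≤ z := by rw [hz]; positivity
  have hz7 : z ^ 7 = Real.log B := by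
    rw [hz, ← Real.rpow_natCast, ← Real.rpow_mul hlog]; norm_num
  have hz2 : z ^ 2 = (Real.log B) ^ (2 / 7 : ℝ) := by
    rw [hz, ← Real.rpow_natCast, ← Real.rpow_mul hlog]; norm_num
  rw [← hz] at hB1 hB2 ⊢
  rw [← hz7, hz7, ← hz2, ← hz7] at hB1
  have hsub : ((Finset.Icc 1 B).filter fun b => ∃ N : ℕ, N₁ ≤ N ∧ (N : ℝ) ≤ z ∧ BadN x C N (b + B')) ⊆
      (Finset.Icc N₁ ⌊z⌋₊).biUnion fun N => (Finset.Icc 1 N).biUnion fun h =>
        (Finset.Icc 1 B).filter fun b => TT' (A + 3) N ≤ SS' x h N (b + B') := by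
    intro b hb
    rw [Finset.mem_filter] at hb
    obtain ⟨hb1, N, hN1, hN2, hbad⟩ := hb
    rw [Finset.mem_biUnion]
    refine ⟨N, Finset.mem_Icc.2 ⟨hN1, Nat.le_floor hN2⟩, ?_⟩
    rw [Finset.mem_biUnion]
    by_contra hcon
    push Not at hcon
    refine not_bad (a := A + 3) (by linarith) (hN₁.trans hN1) (fun n hn => ?_) hC hbad
    by_contra hge
    exact hcon n hn (Finset.mem_filter.2 ⟨hb1, not_lt.1 hge⟩)
  have hterm : ∀ N ∈ Finset.Icc N₁ ⌊z⌋₊, (((Finset.Icc 1 N).biUnion fun h =>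
      (Finset.Icc 1 B).filter fun b => TT' (A + 3) N ≤ SS' x h N (b + B')).card : ℝ) ≤
      (2 * B * (N₁ : ℝ) ^ (-A)) * (1 / (N : ℝ) ^ 2) := by
    intro N hN
    rw [Finset.mem_Icc] at hN
    have hNN : 1 ≤ N := hN₁.trans hN.1
    have hN0 : (0 : ℝ) < N := by exact_mod_cast hNN
    have hNz : (N : ℝ) ≤ z := (Nat.le_floor_iff hz0).1 hN.2
    obtain ⟨n1, n2⟩ := hB2 N hNN hNz
    have hcard : (((Finset.Icc 1 N).biUnion fun h =>
        (Finset.Icc 1 B).filter fun b => TT' (A + 3) N ≤ SS' x h N (b + B')).card : ℝ) ≤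
        ∑ h ∈ Finset.Icc 1 N, (((Finset.Icc 1 B).filter fun b => TT' (A + 3) N ≤ SS' x h N (b + B')).card : ℝ) := by
      exact_mod_cast Finset.card_biUnion_le
    refine hcard.trans ?_
    have hone : ∀ h ∈ Finset.Icc 1 N,
        (((Finset.Icc 1 B).filter fun b => TT' (A + 3) N ≤ SS' x h N (b + B')).card : ℝ) ≤
        2 * B * (N : ℝ) ^ (-(A + 3)) := by
      intro h hh
      rw [Finset.mem_Icc] at hh
      have h2 := bad_card (x := x) (a := A + 3) (B := B) B' hNN hh.1 (Λ := z ^ 7)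
        (W := B * Real.exp (-(z ^ 2))) (by positivity)
        (fun Q q1 q2 q3 => hB1 Q q1 (q2.trans hNz) q3) (by
          refine le_trans ?_ n1
          have : (h : ℝ) ≤ N := by exact_mod_cast hh.2
          gcongr)
      refine h2.trans ?_
      have h3 : (N : ℝ) ^ (kk (A + 3) N) * (B * Real.exp (-(z ^ 2))) ≤ B * (N : ℝ) ^ (-(A + 3)) := by
        calc _ = B * ((N : ℝ) ^ (kk (A + 3) N) * Real.exp (-(z ^ 2))) := by ring
          _ ≤ _ := by gcongr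
      linarith
    calc _ ≤ ∑ h ∈ Finset.Icc 1 N, 2 * B * (N : ℝ) ^ (-(A + 3)) := Finset.sum_le_sum hone
      _ = N * (2 * B * (N : ℝ) ^ (-(A + 3))) := by
          rw [Finset.sum_const, Nat.card_Icc, nsmul_eq_mul, Nat.add_sub_cancel]
      _ = 2 * B * (N : ℝ) ^ (-A) * (1 / (N : ℝ) ^ 2) := by
          have e : (N : ℝ) ^ (-(A + 3)) = (N : ℝ) ^ (-A) * (1 / (N : ℝ) ^ 3) := by
            rw [neg_add, Real.rpow_add hN0, one_div]
            congr 1
            rw [Real.rpow_neg hN0.le]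
            norm_num
          rw [e]
          field_simp
      _ ≤ _ := by
          have h5 : (N : ℝ) ^ (-A) ≤ (N₁ : ℝ) ^ (-A) :=
            Real.rpow_le_rpow_of_nonpos (by exact_mod_cast hN₁) (by exact_mod_cast hN.1) (by linarith)
          gcongr
  calc _ ≤ (((Finset.Icc N₁ ⌊z⌋₊).biUnion fun N => (Finset.Icc 1 N).biUnion fun h =>
        (Finset.Icc 1 B).filter fun b => TT' (A + 3) N ≤ SS' x h N (b + B')).card : ℝ) := by
        exact_mod_cast Finset.card_le_card hsub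
    _ ≤ ∑ N ∈ Finset.Icc N₁ ⌊z⌋₊, (((Finset.Icc 1 N).biUnion fun h =>
        (Finset.Icc 1 B).filter fun b => TT' (A + 3) N ≤ SS' x h N (b + B')).card : ℝ) := by
        exact_mod_cast Finset.card_biUnion_le
    _ ≤ ∑ N ∈ Finset.Icc N₁ ⌊z⌋₊, (2 * B * (N₁ : ℝ) ^ (-A)) * (1 / (N : ℝ) ^ 2) :=
        Finset.sum_le_sum hterm
    _ = (2 * B * (N₁ : ℝ) ^ (-A)) * ∑ N ∈ Finset.Icc N₁ ⌊z⌋₊, 1 / (N : ℝ) ^ 2 := by
        rw [Finset.mul_sum]
    _ ≤ (2 * B * (N₁ : ℝ) ^ (-A)) * 2 := by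
        apply mul_le_mul_of_nonneg_left _ (by positivity)
        refine le_trans ?_ (sum_inv_sq ⌊z⌋₊)
        exact Finset.sum_le_sum_of_subset_of_nonneg (Finset.Icc_subset_Icc_left hN₁)
          fun _ _ _ => by positivity
    _ = _ := by ring

open Classical in
theorem main {x c : ℝ} {τ : ℕ} (hc : 0 < c) (hc1 : c ≤ 1) (hx : FT x c τ) (A : ℝ) :
    ∃ C : ℝ, ∀ B B' N₁ : ℕ, 1 ≤ B → 1 ≤ N₁ →
      (((Finset.Icc 1 B).filter fun b => ∃ N : ℕ, N₁ ≤ N ∧ (N : ℝ) ≤ (Real.log B) ^ (1 / 7 : ℝ) ∧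
        BadN x C N (b + B')).card : ℝ) ≤ C * (N₁ : ℝ) ^ (-A) * B := by
  obtain ⟨A', hA'⟩ : ∃ A' : ℝ, A' = max A 0 := ⟨_, rfl⟩
  have hA0 : 0 ≤ A' := by rw [hA']; exact le_max_right _ _
  have hAA : A ≤ A' := by rw [hA']; exact le_max_left _ _
  obtain ⟨C₀, hC₀⟩ : ∃ C₀ : ℝ, C₀ = 2 * (2 + 5 / 2 * √(3 * ((A' + 3) + 3))) := ⟨_, rfl⟩
  have hC04 : 4 ≤ C₀ := by
    rw [hC₀]
    have : 0 ≤ √(3 * ((A' + 3) + 3)) := Real.sqrt_nonneg _
    linarith
  obtain ⟨B₀, hB₀⟩ := eventually_atTop.1 (main_large hc hc1 hx (C := C₀) hA0 hC₀.ge)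
  -- a bound for the finitely many remaining `B`
  obtain ⟨K, hK⟩ : ∃ K : ℝ, K = max 1 ((Real.log (B₀ + 1)) ^ (1 / 7 : ℝ)) := ⟨_, rfl⟩
  have hK1 : 1 ≤ K := by rw [hK]; exact le_max_left _ _
  refine ⟨max C₀ (K ^ A'), fun B B' N₁ hB hN₁ => ?_⟩
  have hN0 : (0 : ℝ) < N₁ := by exact_mod_cast hN₁
  have hN1 : (1 : ℝ) ≤ N₁ := by exact_mod_cast hN₁
  have hpow : (N₁ : ℝ) ^ (-A') ≤ (N₁ : ℝ) ^ (-A) :=
    Real.rpow_le_rpow_of_exponent_le hN1 (by linarith)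
  have hmono : ∀ N b, BadN x (max C₀ (K ^ A')) N b → BadN x C₀ N b := by
    rintro N b ⟨u, v, h1, h2, h3, h4⟩
    refine ⟨u, v, h1, h2, h3, lt_of_le_of_lt ?_ h4⟩
    exact mul_le_mul_of_nonneg_right (le_max_left _ _) (Real.sqrt_nonneg _)
  by_cases hBB : B₀ ≤ B
  · have h1 := hB₀ B hBB B' N₁ hN₁
    have h2 : (((Finset.Icc 1 B).filter fun b => ∃ N : ℕ, N₁ ≤ N ∧
        (N : ℝ) ≤ (Real.log B) ^ (1 / 7 : ℝ) ∧ BadN x (max C₀ (K ^ A')) N (b + B')).card : ℝ) ≤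
        (((Finset.Icc 1 B).filter fun b => ∃ N : ℕ, N₁ ≤ N ∧
        (N : ℝ) ≤ (Real.log B) ^ (1 / 7 : ℝ) ∧ BadN x C₀ N (b + B')).card : ℝ) := by
      have := Finset.card_le_card (Finset.monotone_filter_right (Finset.Icc 1 B)
        (p := fun b => ∃ N : ℕ, N₁ ≤ N ∧ (N : ℝ) ≤ (Real.log B) ^ (1 / 7 : ℝ) ∧
          BadN x (max C₀ (K ^ A')) N (b + B'))
        (q := fun b => ∃ N : ℕ, N₁ ≤ N ∧ (N : ℝ) ≤ (Real.log B) ^ (1 / 7 : ℝ) ∧ BadN x C₀ N (b + B'))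
        (by
          rintro b _ ⟨N, h3, h4, h5⟩
          exact ⟨N, h3, h4, hmono N _ h5⟩))
      exact_mod_cast this
    refine h2.trans (h1.trans ?_)
    have h3 : 4 ≤ max C₀ (K ^ A') := hC04.trans (le_max_left _ _)
    gcongr
  · by_cases hne : ∃ N : ℕ, N₁ ≤ N ∧ (N : ℝ) ≤ (Real.log B) ^ (1 / 7 : ℝ)
    · obtain ⟨N, h1, h2⟩ := hne
      have h3 : (N₁ : ℝ) ≤ K := by
        calc (N₁ : ℝ) ≤ N := by exact_mod_cast h1
          _ ≤ (Real.log B) ^ (1 / 7 : ℝ) := h2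
          _ ≤ (Real.log (B₀ + 1)) ^ (1 / 7 : ℝ) := by
              apply Real.rpow_le_rpow (Real.log_nonneg (by exact_mod_cast hB)) _ (by norm_num)
              apply Real.log_le_log (by exact_mod_cast hB)
              have : B ≤ B₀ + 1 := by omega
              exact_mod_cast this
          _ ≤ K := by rw [hK]; exact le_max_right _ _
      have h4 : (N₁ : ℝ) ^ A' ≤ K ^ A' := Real.rpow_le_rpow hN0.le h3 hA0
      have h5 : 1 ≤ max C₀ (K ^ A') * (N₁ : ℝ) ^ (-A) := by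
        calc (1 : ℝ) = (N₁ : ℝ) ^ A' * (N₁ : ℝ) ^ (-A') := by
              rw [← Real.rpow_add hN0]; simp
          _ ≤ max C₀ (K ^ A') * (N₁ : ℝ) ^ (-A) := by
              apply mul_le_mul (h4.trans (le_max_right _ _)) hpow (by positivity)
              exact le_trans (by linarith) (le_max_left _ _)
      calc _ ≤ ((Finset.Icc 1 B).card : ℝ) := by exact_mod_cast Finset.card_filter_le _ _
        _ = 1 * B := by rw [Nat.card_Icc, Nat.add_sub_cancel, one_mul]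
        _ ≤ _ := by gcongr
    · have h1 : ((Finset.Icc 1 B).filter fun b => ∃ N : ℕ, N₁ ≤ N ∧
          (N : ℝ) ≤ (Real.log B) ^ (1 / 7 : ℝ) ∧ BadN x (max C₀ (K ^ A')) N (b + B')) = ∅ := by
        rw [Finset.filter_eq_empty_iff]
        rintro b _ ⟨N, h1, h2, _⟩
        exact hne ⟨N, h1, h2⟩
      rw [h1, Finset.card_empty, Nat.cast_zero]
      have : 0 ≤ max C₀ (K ^ A') := le_trans (by linarith) (le_max_left _ _)
      positivity

/-- numbers which are irrational and not Liouville numbers are of finite type -/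
theorem FT_of {x : ℝ} (hirr : Irrational x) (hL : ¬ Liouville x) :
    ∃ (c : ℝ) (τ : ℕ), 0 < c ∧ c ≤ 1 ∧ FT x c τ := by
  unfold Liouville at hL
  push Not at hL
  obtain ⟨n, hn⟩ := hL
  have hd : 0 < dz x := by
    unfold dz
    rw [abs_pos]
    intro h
    exact hirr.ne_int (round x) (by linarith)
  refine ⟨min 1 (dz x), n, lt_min one_pos hd, min_le_left _ _, ?_⟩
  intro q hq
  have hneg : ∀ θ : ℝ, dz (-θ) = dz θ := by
    intro θ
    apply le_antisymm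
    · have := dz_sub 0 θ
      have h0 : dz 0 = 0 := by unfold dz; simp
      rw [h0, zero_sub, zero_add] at this
      exact this
    · have := dz_sub 0 (-θ)
      have h0 : dz 0 = 0 := by unfold dz; simp
      rw [h0, zero_sub, zero_add, neg_neg] at this
      exact this
  have key : ∀ b : ℤ, 1 ≤ b → min 1 (dz x) / (b : ℝ) ^ n ≤ dz (x * b) := by
    intro b hb
    have hb0 : (0 : ℝ) < b := by exact_mod_cast (by omega : 0 < b)
    have hb1 : (1 : ℝ) ≤ b := by exact_mod_cast hb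
    rcases eq_or_lt_of_le hb with h1 | h1
    · rw [← h1]
      simp
    · have hne : x ≠ (round (x * b) : ℤ) / b := by
        intro h
        have h2 : x = (((round (x * b) : ℚ) / (b : ℚ) : ℚ) : ℝ) := by
          push_cast
          exact h
        exact hirr.ne_rat _ h2
      have h2 := hn (round (x * b)) b h1 hne
      have h3 : dz (x * b) = b * |x - (round (x * b) : ℤ) / b| := by
        unfold dz
        rw [← abs_of_pos hb0, ← abs_mul, abs_of_pos hb0]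
        congr 1
        field_simp
      rw [h3]
      calc min 1 (dz x) / (b : ℝ) ^ n ≤ 1 / (b : ℝ) ^ n := by
            gcongr
            exact min_le_left _ _
        _ ≤ |x - (round (x * b) : ℤ) / b| := h2
        _ ≤ b * |x - (round (x * b) : ℤ) / b| := le_mul_of_one_le_left (abs_nonneg _) hb1
  rcases lt_or_gt_of_ne hq with h | h
  · have h1 := key (-q) (by omega)
    have h2 : x * q = -(x * ((-q : ℤ) : ℝ)) := by push_cast; ring
    rw [h2, hneg]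
    have h3 : |(q : ℝ)| = ((-q : ℤ) : ℝ) := by
      rw [abs_of_neg (by exact_mod_cast h)]
      push_cast
      rfl
    rw [h3]
    exact h1
  · have h1 := key q (by omega)
    rw [abs_of_pos (by exact_mod_cast h)]
    exact h1

end Pool.Agent.X121.AB
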