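import Mathlib
import Pool.Agent.Y93.VK.DB

/-!
An inequality of Erdős–Turán type.
-/

set_option autoImplicit false

namespace Pool.Agent.X121.AB

open Finset Filter Topology
open Pool.Agent.Y93.VK (ee ee_add norm_ee ee_zero ee_neg ee_eq)

/-- the second Bernoulli function -/
noncomputable def be (t : ℝ) : ℝ := Int.fract t ^ 2 - Int.fract t + 1 / 6

theorem be_fourier (t : ℝ) :
    HasSum (fun n : ℕ => 1 / (n : ℝ) ^ 2 * Real.cos (2 * Real.pi * n * t)) (Real.pi ^ 2 * be t) := by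
  have h1 := hasSum_one_div_nat_pow_mul_cos (k := 1) one_ne_zero (x := Int.fract t)
    ⟨Int.fract_nonneg t, (Int.fract_lt_one t).le⟩
  have h3 : ((Polynomial.bernoulli (2 * 1)).map (algebraMap ℚ ℝ)).eval (Int.fract t) = be t := by
    unfold be
    simp only [Polynomial.bernoulli, Finset.sum_range_succ, Finset.sum_range_zero]
    norm_num [Polynomial.eval_monomial, bernoulli_one, bernoulli_two, Nat.choose]
    ring
  rw [h3] at h1
  have h2 : (-1 : ℝ) ^ (1 + 1) * (2 * Real.pi) ^ (2 * 1) / 2 / ((2 * 1).factorial : ℝ) * be t =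
      Real.pi ^ 2 * be t := by
    have : ((2 * 1).factorial : ℝ) = 2 := by norm_num [Nat.factorial]
    rw [this]
    ring
  rw [h2] at h1
  have h4 : (fun n : ℕ => 1 / (n : ℝ) ^ 2 * Real.cos (2 * Real.pi * n * t)) =
      fun n : ℕ => 1 / (n : ℝ) ^ (2 * 1) * Real.cos (2 * Real.pi * n * Int.fract t) := by
    funext n
    rw [mul_one]
    congr 1
    have h5 : 2 * Real.pi * n * t = 2 * Real.pi * n * Int.fract t + ((n * ⌊t⌋ : ℤ) : ℝ) * (2 * Real.pi) := by
      have := Int.fract_add_floor t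
      push_cast
      calc 2 * Real.pi * n * t = 2 * Real.pi * n * (Int.fract t + ⌊t⌋) := by rw [this]
        _ = _ := by ring
    rw [h5, Real.cos_add_int_mul_two_pi]
  rw [h4]
  exact h1

/-- the partial sums -/
noncomputable def Pn (N : ℕ) (t : ℝ) : ℝ :=
  ∑ n ∈ Finset.range (N + 1), 1 / (n : ℝ) ^ 2 * Real.cos (2 * Real.pi * n * t)

theorem be_approx {N : ℕ} (hN : 1 ≤ N) (t : ℝ) : |Real.pi ^ 2 * be t - Pn N t| ≤ 1 / N := by
  have h1 := ((be_fourier t).tendsto_sum_nat.comp (tendsto_add_atTop_nat 1)).sub_const (Pn N t)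
  have h2 := h1.abs
  refine le_of_tendsto h2 ?_
  filter_upwards [eventually_ge_atTop N] with m hm
  have h3 : ∑ n ∈ Finset.range (m + 1), 1 / (n : ℝ) ^ 2 * Real.cos (2 * Real.pi * n * t) - Pn N t =
      ∑ n ∈ Finset.Ioc N m, 1 / (n : ℝ) ^ 2 * Real.cos (2 * Real.pi * n * t) := by
    unfold Pn
    have e : Finset.Ioc N m = Finset.Ico (N + 1) (m + 1) := by
      ext i
      simp only [Finset.mem_Ioc, Finset.mem_Ico]
      omega
    rw [e, Finset.sum_Ico_eq_sub _ (by omega)]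
  show |∑ n ∈ Finset.range (m + 1), 1 / (n : ℝ) ^ 2 * Real.cos (2 * Real.pi * n * t) - Pn N t| ≤ _
  rw [h3]
  refine (Finset.abs_sum_le_sum_abs _ _).trans ?_
  calc _ ≤ ∑ n ∈ Finset.Ioc N m, ((n : ℝ) ^ 2)⁻¹ := by
        refine Finset.sum_le_sum fun n _ => ?_
        rw [abs_mul, one_div, abs_of_nonneg (by positivity : (0 : ℝ) ≤ ((n : ℝ) ^ 2)⁻¹)]
        exact mul_le_of_le_one_right (by positivity) (Real.abs_cos_le_one _)
    _ ≤ (N : ℝ)⁻¹ - (m : ℝ)⁻¹ := sum_Ioc_inv_sq_le_sub (by omega) hm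
    _ ≤ 1 / N := by
        rw [one_div]
        have : (0 : ℝ) ≤ (m : ℝ)⁻¹ := by positivity
        linarith

theorem ee_sub_le (a b : ℝ) : ‖ee a - ee b‖ ≤ 2 * Real.pi * |a - b| := by
  have h1 : ee a - ee b = ee b * (ee (a - b) - 1) := by
    rw [mul_sub, ← ee_add, mul_one]
    congr 2
    ring
  rw [h1, norm_mul, norm_ee, one_mul, ee_eq]
  refine (Real.norm_exp_I_mul_ofReal_sub_one_le).trans (le_of_eq ?_)
  rw [Real.norm_eq_abs, abs_mul, abs_of_pos Real.two_pi_pos]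

theorem cos_eq_re (t : ℝ) : Real.cos (2 * Real.pi * t) = (ee t).re := by
  rw [ee_eq, mul_comm Complex.I, Complex.exp_ofReal_mul_I_re]

theorem Pn_diff (y : ℕ → ℝ) {N : ℕ} {T : ℝ}
    (hT : ∀ n : ℕ, 1 ≤ n → n ≤ N → ‖∑ i ∈ Finset.Icc 1 N, ee (n * y i)‖ ≤ T) (hT0 : 0 ≤ T) (a b : ℝ) :
    |∑ i ∈ Finset.Icc 1 N, (Pn N (y i - a) - Pn N (y i - b))| ≤
      2 * Real.pi * |a - b| * T * (1 + Real.log N) := by
  have h1 : ∑ i ∈ Finset.Icc 1 N, (Pn N (y i - a) - Pn N (y i - b)) =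
      ∑ n ∈ Finset.range (N + 1), 1 / (n : ℝ) ^ 2 *
        ((ee (-(n * a)) - ee (-(n * b))) * ∑ i ∈ Finset.Icc 1 N, ee (n * y i)).re := by
    unfold Pn
    simp only [← Finset.sum_sub_distrib]
    rw [Finset.sum_comm]
    refine Finset.sum_congr rfl fun n _ => ?_
    rw [Finset.mul_sum, Complex.re_sum, Finset.mul_sum]
    refine Finset.sum_congr rfl fun i _ => ?_
    rw [sub_mul, ← ee_add, ← ee_add, Complex.sub_re, ← cos_eq_re, ← cos_eq_re]
    have e1 : 2 * Real.pi * (-(n * a) + n * y i) = 2 * Real.pi * n * (y i - a) := by ring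
    have e2 : 2 * Real.pi * (-(n * b) + n * y i) = 2 * Real.pi * n * (y i - b) := by ring
    rw [e1, e2]
    ring
  rw [h1]
  refine (Finset.abs_sum_le_sum_abs _ _).trans ?_
  have hx : 0 ≤ 2 * Real.pi * |a - b| * T := by have := Real.pi_pos; positivity
  rw [Finset.sum_range_succ']
  have h0 : |1 / (((0 : ℕ) : ℝ)) ^ 2 * ((ee (-(((0 : ℕ) : ℝ) * a)) - ee (-(((0 : ℕ) : ℝ) * b))) *
      ∑ i ∈ Finset.Icc 1 N, ee (((0 : ℕ) : ℝ) * y i)).re| = 0 := by simp
  rw [h0, add_zero]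
  calc _ ≤ ∑ n ∈ Finset.range N, (2 * Real.pi * |a - b| * T) * ((n : ℝ) + 1)⁻¹ := by
        refine Finset.sum_le_sum fun n hn => ?_
        rw [Finset.mem_range] at hn
        have hn0 : (0 : ℝ) < ((n + 1 : ℕ) : ℝ) := by positivity
        rw [abs_mul, abs_of_nonneg (by positivity : (0 : ℝ) ≤ 1 / (((n + 1 : ℕ) : ℝ)) ^ 2)]
        have h2 : |((ee (-(((n + 1 : ℕ) : ℝ) * a)) - ee (-(((n + 1 : ℕ) : ℝ) * b))) *
            ∑ i ∈ Finset.Icc 1 N, ee (((n + 1 : ℕ) : ℝ) * y i)).re| ≤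
            (2 * Real.pi * (((n + 1 : ℕ) : ℝ) * |a - b|)) * T := by
          refine (Complex.abs_re_le_norm _).trans ?_
          rw [norm_mul]
          apply mul_le_mul _ (hT (n + 1) (by omega) (by omega)) (norm_nonneg _)
            (by have := Real.pi_pos; positivity)
          refine (ee_sub_le _ _).trans (le_of_eq ?_)
          have : -(((n + 1 : ℕ) : ℝ) * a) - -(((n + 1 : ℕ) : ℝ) * b) = -(((n + 1 : ℕ) : ℝ) * (a - b)) := by
            ring
          rw [this, abs_neg, abs_mul, abs_of_pos hn0]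
        calc _ ≤ 1 / (((n + 1 : ℕ) : ℝ)) ^ 2 * ((2 * Real.pi * (((n + 1 : ℕ) : ℝ) * |a - b|)) * T) := by
              gcongr
          _ = _ := by
              push_cast
              push_cast at hn0
              field_simp
    _ = (2 * Real.pi * |a - b| * T) * (harmonic N : ℝ) := by
        rw [← Finset.mul_sum, harmonic]
        push_cast
        rfl
    _ ≤ _ := mul_le_mul_of_nonneg_left (harmonic_le_one_add_log N) hx

theorem be_diff (y : ℕ → ℝ) {N : ℕ} (hN : 1 ≤ N) {T : ℝ}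
    (hT : ∀ n : ℕ, 1 ≤ n → n ≤ N → ‖∑ i ∈ Finset.Icc 1 N, ee (n * y i)‖ ≤ T) (hT0 : 0 ≤ T) (a b : ℝ) :
    |∑ i ∈ Finset.Icc 1 N, (be (y i - a) - be (y i - b))| ≤
      |a - b| * T * (1 + Real.log N) + 1 := by
  have hpi := Real.pi_pos
  have hpi3 := Real.pi_gt_three
  have h1 := Pn_diff y hT hT0 a b
  have h2 : |Real.pi ^ 2 * ∑ i ∈ Finset.Icc 1 N, (be (y i - a) - be (y i - b)) -
      ∑ i ∈ Finset.Icc 1 N, (Pn N (y i - a) - Pn N (y i - b))| ≤ 2 := by
    rw [Finset.mul_sum, ← Finset.sum_sub_distrib]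
    refine (Finset.abs_sum_le_sum_abs _ _).trans ?_
    calc _ ≤ ∑ i ∈ Finset.Icc 1 N, (2 / (N : ℝ)) := by
          refine Finset.sum_le_sum fun i _ => ?_
          have e1 := be_approx hN (y i - a)
          have e2 := be_approx hN (y i - b)
          calc |Real.pi ^ 2 * (be (y i - a) - be (y i - b)) - (Pn N (y i - a) - Pn N (y i - b))|
              = |(Real.pi ^ 2 * be (y i - a) - Pn N (y i - a)) -
                (Real.pi ^ 2 * be (y i - b) - Pn N (y i - b))| := by congr 1; ring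
            _ ≤ _ := abs_sub _ _
            _ ≤ 1 / N + 1 / N := add_le_add e1 e2
            _ = 2 / N := by ring
      _ = 2 := by
          rw [Finset.sum_const, Nat.card_Icc, nsmul_eq_mul, Nat.add_sub_cancel]
          have : (N : ℝ) ≠ 0 := by positivity
          field_simp
  obtain ⟨D, hD⟩ : ∃ D : ℝ, D = ∑ i ∈ Finset.Icc 1 N, (be (y i - a) - be (y i - b)) := ⟨_, rfl⟩
  obtain ⟨E, hE⟩ : ∃ E : ℝ, E = ∑ i ∈ Finset.Icc 1 N, (Pn N (y i - a) - Pn N (y i - b)) := ⟨_, rfl⟩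
  rw [← hD, ← hE] at h2
  rw [← hE] at h1
  rw [← hD]
  have h3 : Real.pi ^ 2 * |D| ≤ 2 * Real.pi * |a - b| * T * (1 + Real.log N) + 2 := by
    calc Real.pi ^ 2 * |D| = |Real.pi ^ 2 * D| := by
          rw [abs_mul, abs_of_pos (by positivity : (0 : ℝ) < Real.pi ^ 2)]
      _ = |(Real.pi ^ 2 * D - E) + E| := by congr 1; ring
      _ ≤ 2 + 2 * Real.pi * |a - b| * T * (1 + Real.log N) := (abs_add_le _ _).trans (add_le_add h2 h1)
      _ = _ := by ring
  have hlog : 0 ≤ 1 + Real.log N := by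
    have := Real.log_nonneg (by exact_mod_cast hN : (1 : ℝ) ≤ N)
    linarith
  have hz : 0 ≤ |a - b| * T * (1 + Real.log N) := by positivity
  have h4 : 2 * Real.pi * |a - b| * T * (1 + Real.log N) ≤
      Real.pi ^ 2 * (|a - b| * T * (1 + Real.log N)) := by
    have : 2 * Real.pi ≤ Real.pi ^ 2 := by nlinarith
    calc _ = 2 * Real.pi * (|a - b| * T * (1 + Real.log N)) := by ring
      _ ≤ _ := mul_le_mul_of_nonneg_right this hz
  have h5 : Real.pi ^ 2 * |D| ≤ Real.pi ^ 2 * (|a - b| * T * (1 + Real.log N) + 1) := by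
    have : (2 : ℝ) ≤ Real.pi ^ 2 := by nlinarith
    linarith
  exact le_of_mul_le_mul_left h5 (by positivity)

theorem fract_sub_eq {w : ℝ} (h0 : 0 ≤ w) (h1 : w ≤ 1) (t : ℝ) :
    Int.fract (t - w) = if w ≤ Int.fract t then Int.fract t - w else Int.fract t - w + 1 := by
  have f0 := Int.fract_nonneg t
  have f1 := Int.fract_lt_one t
  have e := Int.fract_add_floor t
  split_ifs with h
  · rw [Int.fract_eq_iff]
    refine ⟨by linarith, by linarith, ⌊t⌋, by linarith⟩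
  · push Not at h
    rw [Int.fract_eq_iff]
    refine ⟨by linarith, by linarith, ⌊t⌋ - 1, by push_cast; linarith⟩

/-- the sawtooth function -/
noncomputable def saw (t : ℝ) : ℝ := Int.fract t - 1 / 2

theorem saw_le {δ : ℝ} (h0 : 0 < δ) (h1 : δ ≤ 1) (t : ℝ) :
    2 * δ * saw t ≤ (be t - be (t - δ)) + δ ^ 2 := by
  have f0 := Int.fract_nonneg t
  have f1 := Int.fract_lt_one t
  unfold saw be
  rw [fract_sub_eq h0.le h1 t]
  split_ifs with h
  · nlinarith
  · push Not at h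
    nlinarith

theorem saw_ge {δ : ℝ} (h0 : 0 < δ) (h1 : δ ≤ 1) (t : ℝ) :
    (be (t + δ) - be t) - δ ^ 2 ≤ 2 * δ * saw t := by
  have f0 := Int.fract_nonneg t
  have f1 := Int.fract_lt_one t
  have e : Int.fract (t + δ) = Int.fract (t - (1 - δ)) := by
    have : t + δ = t - (1 - δ) + 1 := by ring
    rw [this, Int.fract_add_one]
  unfold saw be
  rw [e, fract_sub_eq (by linarith) (by linarith) t]
  split_ifs with h
  · nlinarith
  · push Not at h
    nlinarith

/-- the indicator function -/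
theorem ind_eq {u v : ℝ} (hu : 0 ≤ u) (huv : u ≤ v) (hv : v ≤ 1) (t : ℝ) :
    (if u ≤ Int.fract t ∧ Int.fract t < v then (1 : ℝ) else 0) = (v - u) + (saw (t - v) - saw (t - u)) := by
  have f0 := Int.fract_nonneg t
  have f1 := Int.fract_lt_one t
  unfold saw
  rw [fract_sub_eq (by linarith) hv t, fract_sub_eq hu (by linarith) t]
  by_cases h1 : u ≤ Int.fract t
  · by_cases h2 : v ≤ Int.fract t
    · rw [if_neg (by push Not; intro _; exact h2), if_pos h2, if_pos h1]; ring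
    · rw [if_pos ⟨h1, not_le.1 h2⟩, if_neg h2, if_pos h1]; ring
  · have h2 : ¬ v ≤ Int.fract t := fun h => h1 (by linarith)
    rw [if_neg (fun h => h1 h.1), if_neg h2, if_neg h1]; ring

theorem saw_sum (y : ℕ → ℝ) {N : ℕ} (hN : 1 ≤ N) {T : ℝ}
    (hT : ∀ n : ℕ, 1 ≤ n → n ≤ N → ‖∑ i ∈ Finset.Icc 1 N, ee (n * y i)‖ ≤ T) (hT0 : 0 ≤ T) (a : ℝ) :
    |∑ i ∈ Finset.Icc 1 N, saw (y i - a)| ≤ √N + T * (1 + Real.log N) := by
  have hN0 : (1 : ℝ) ≤ N := by exact_mod_cast hN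
  have hs : (1 : ℝ) ≤ √N := Real.one_le_sqrt.2 hN0
  have hss : √(N : ℝ) * √(N : ℝ) = N := Real.mul_self_sqrt (by linarith)
  obtain ⟨δ, hδ⟩ : ∃ δ : ℝ, δ = 1 / √(N : ℝ) := ⟨_, rfl⟩
  have hδ0 : 0 < δ := by rw [hδ]; positivity
  have hδ1 : δ ≤ 1 := by rw [hδ, div_le_one (by linarith)]; exact hs
  have hδs : δ * √(N : ℝ) = 1 := by rw [hδ]; field_simp
  have hNδ : (N : ℝ) * δ = √N := by
    calc (N : ℝ) * δ = (√(N : ℝ) * √(N : ℝ)) * δ := by rw [hss]
      _ = √(N : ℝ) * (δ * √(N : ℝ)) := by ring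
      _ = √N := by rw [hδs, mul_one]
  have hup : 2 * δ * ∑ i ∈ Finset.Icc 1 N, saw (y i - a) ≤
      δ * T * (1 + Real.log N) + 1 + N * δ ^ 2 := by
    have h1 := be_diff y hN hT hT0 a (a + δ)
    have h2 : |a - (a + δ)| = δ := by rw [show a - (a + δ) = -δ by ring, abs_neg, abs_of_pos hδ0]
    rw [h2] at h1
    have h3 := (abs_le.1 h1).2
    calc 2 * δ * ∑ i ∈ Finset.Icc 1 N, saw (y i - a) = ∑ i ∈ Finset.Icc 1 N, 2 * δ * saw (y i - a) := by
          rw [Finset.mul_sum]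
      _ ≤ ∑ i ∈ Finset.Icc 1 N, ((be (y i - a) - be (y i - (a + δ))) + δ ^ 2) := by
          refine Finset.sum_le_sum fun i _ => ?_
          have h4 := saw_le hδ0 hδ1 (y i - a)
          rw [show y i - a - δ = y i - (a + δ) by ring] at h4
          exact h4
      _ = ∑ i ∈ Finset.Icc 1 N, (be (y i - a) - be (y i - (a + δ))) + N * δ ^ 2 := by
          rw [Finset.sum_add_distrib, Finset.sum_const, Nat.card_Icc, nsmul_eq_mul, Nat.add_sub_cancel]
      _ ≤ _ := by linarith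
  have hlow : -(δ * T * (1 + Real.log N) + 1 + N * δ ^ 2) ≤
      2 * δ * ∑ i ∈ Finset.Icc 1 N, saw (y i - a) := by
    have h1 := be_diff y hN hT hT0 (a - δ) a
    have h2 : |(a - δ) - a| = δ := by rw [show a - δ - a = -δ by ring, abs_neg, abs_of_pos hδ0]
    rw [h2] at h1
    have h3 := (abs_le.1 h1).1
    calc _ ≤ ∑ i ∈ Finset.Icc 1 N, (be (y i - (a - δ)) - be (y i - a)) - N * δ ^ 2 := by linarith
      _ = ∑ i ∈ Finset.Icc 1 N, ((be (y i - (a - δ)) - be (y i - a)) - δ ^ 2) := by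
          rw [Finset.sum_sub_distrib (f := fun i => be (y i - (a - δ)) - be (y i - a)),
            Finset.sum_const, Nat.card_Icc, nsmul_eq_mul, Nat.add_sub_cancel]
      _ ≤ ∑ i ∈ Finset.Icc 1 N, 2 * δ * saw (y i - a) := by
          refine Finset.sum_le_sum fun i _ => ?_
          have h4 := saw_ge hδ0 hδ1 (y i - a)
          rw [show y i - a + δ = y i - (a - δ) by ring] at h4
          exact h4
      _ = _ := by rw [Finset.mul_sum]
  have e1 : δ * T * (1 + Real.log N) + 1 + N * δ ^ 2 =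
      2 * δ * (T * (1 + Real.log N) / 2 + √N) := by
    have : (N : ℝ) * δ ^ 2 = 1 := by
      calc (N : ℝ) * δ ^ 2 = (N * δ) * δ := by ring
        _ = √N * δ := by rw [hNδ]
        _ = 1 := by rw [mul_comm]; exact hδs
    rw [this]
    have : 2 * δ * (T * (1 + Real.log N) / 2 + √N) = δ * T * (1 + Real.log N) + 2 * (δ * √N) := by ring
    rw [this, hδs]
    ring
  rw [e1] at hup hlow
  have hlog : 0 ≤ 1 + Real.log N := by
    have := Real.log_nonneg hN0
    linarith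
  have hz : 0 ≤ T * (1 + Real.log N) := by positivity
  rw [abs_le]
  constructor
  · have h5 : 2 * δ * (-(T * (1 + Real.log N) / 2 + √N)) ≤
        2 * δ * ∑ i ∈ Finset.Icc 1 N, saw (y i - a) := by linarith
    have := le_of_mul_le_mul_left h5 (by positivity)
    linarith
  · have := le_of_mul_le_mul_left hup (by positivity)
    linarith

/-- the inequality of Erdős–Turán type -/
theorem erdos_turan (y : ℕ → ℝ) {N : ℕ} (hN : 1 ≤ N) {T : ℝ}
    (hT : ∀ n : ℕ, 1 ≤ n → n ≤ N → ‖∑ i ∈ Finset.Icc 1 N, ee (n * y i)‖ ≤ T) (hT0 : 0 ≤ T)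
    {u v : ℝ} (hu : 0 ≤ u) (huv : u ≤ v) (hv : v ≤ 1) :
    |(((Finset.Icc 1 N).filter fun i => u ≤ Int.fract (y i) ∧ Int.fract (y i) < v).card : ℝ) -
      (v - u) * N| ≤ 2 * (√N + T * (1 + Real.log N)) := by
  have h1 : (((Finset.Icc 1 N).filter fun i => u ≤ Int.fract (y i) ∧ Int.fract (y i) < v).card : ℝ) =
      (v - u) * N + (∑ i ∈ Finset.Icc 1 N, saw (y i - v) - ∑ i ∈ Finset.Icc 1 N, saw (y i - u)) := by
    rw [Finset.card_filter]
    push_cast
    rw [Finset.sum_congr rfl fun i _ => ind_eq hu huv hv (y i), Finset.sum_add_distrib,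
      Finset.sum_const, Nat.card_Icc, nsmul_eq_mul, Nat.add_sub_cancel, Finset.sum_sub_distrib]
    ring
  rw [h1]
  have h2 := saw_sum y hN hT hT0 u
  have h3 := saw_sum y hN hT hT0 v
  calc _ = |∑ i ∈ Finset.Icc 1 N, saw (y i - v) - ∑ i ∈ Finset.Icc 1 N, saw (y i - u)| := by
        congr 1; ring
    _ ≤ _ := abs_sub _ _
    _ ≤ _ := by linarith

end Pool.Agent.X121.AB
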