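import Pool.Agent.X121.AB.Weyl
import Pool.Agent.X121.AB.ET

set_option autoImplicit false

namespace Pool.Agent.X121.AB

open Finset Pool.Agent.Y957.VK Filter Polynomial
open Pool.Agent.Y93.VK (ee ee_add norm_ee ee_neg ee_sum ee_zero)
open scoped ComplexConjugate

theorem coeff_list (l : List ℕ) (n : ℕ) :
    ((l.map (fun a => (X : ℤ[X]) ^ a)).sum).coeff n = (l.count n : ℤ) := by
  induction l with
  | nil => simp
  | cons a l ih =>
    rw [List.map_cons, List.sum_cons, coeff_add, ih, coeff_X_pow, List.count_cons]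
    by_cases h : a = n
    · subst h
      simp
      ring
    · have h' : ¬ n = a := fun e => h e.symm
      simp [h, h']

theorem sum_eq_list {k : ℕ} (f : Fin k → ℕ) :
    ∑ j, (X : ℤ[X]) ^ f j = ((List.ofFn f).map (fun a => (X : ℤ[X]) ^ a)).sum := by
  rw [List.map_ofFn, List.sum_ofFn]
  rfl

/-- the polynomials which occur in the moments -/
noncomputable def Qp {k : ℕ} (f g : Fin k → ℕ) : ℤ[X] := ∑ j, (X : ℤ[X]) ^ f j - ∑ j, (X : ℤ[X]) ^ g j

theorem Qp_coeff {k : ℕ} (f g : Fin k → ℕ) (n : ℕ) : |(Qp f g).coeff n| ≤ k := by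
  unfold Qp
  rw [sum_eq_list, sum_eq_list, coeff_sub, coeff_list, coeff_list]
  have h1 : (List.ofFn f).count n ≤ k := by
    refine (List.count_le_length).trans ?_
    rw [List.length_ofFn]
  have h2 : (List.ofFn g).count n ≤ k := by
    refine (List.count_le_length).trans ?_
    rw [List.length_ofFn]
  rw [abs_le]
  constructor <;> omega

theorem card_perm {k : ℕ} (f : Fin k → ℕ) (S : Finset (Fin k → ℕ)) (hS : ∀ g ∈ S, Qp f g = 0) :
    S.card ≤ k.factorial := by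
  classical
  have h1 : S.card ≤ ((List.ofFn f).permutations.toFinset).card := by
    refine Finset.card_le_card_of_injOn (fun g => List.ofFn g) (fun g hg => ?_) ?_
    · rw [Finset.mem_coe, List.mem_toFinset, List.mem_permutations, List.perm_iff_count]
      intro n
      have h2 := hS g hg
      unfold Qp at h2
      have h3 := congrArg (fun P : ℤ[X] => P.coeff n) h2
      rw [sum_eq_list, sum_eq_list, coeff_sub, coeff_list, coeff_list, coeff_zero] at h3
      show (List.ofFn g).count n = (List.ofFn f).count n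
      omega
    · intro g _ g' _ h
      exact List.ofFn_injective h
  refine h1.trans ((List.toFinset_card_le _).trans ?_)
  rw [List.length_permutations, List.length_ofFn]

theorem pow_expand (k N : ℕ) (t : ℕ → ℝ) :
    (∑ i ∈ Finset.Icc 1 N, ee (t i)) ^ k = ∑ f ∈ Tu k N, ee (∑ j, t (f j)) := by
  have h := Finset.prod_univ_sum (fun _ : Fin k => Finset.Icc 1 N) (fun _ i => ee (t i))
  rw [Finset.prod_const, Finset.card_univ, Fintype.card_fin] at h
  rw [h]
  unfold Tu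
  exact Finset.sum_congr rfl fun f _ => (ee_sum _ _).symm

theorem norm_pow_expand (k N : ℕ) (t : ℕ → ℝ) :
    ((‖∑ i ∈ Finset.Icc 1 N, ee (t i)‖ ^ (2 * k) : ℝ) : ℂ) =
      ∑ z ∈ Tu k N ×ˢ Tu k N, ee (∑ j, t (z.1 j) - ∑ j, t (z.2 j)) := by
  have h1 : ((‖∑ i ∈ Finset.Icc 1 N, ee (t i)‖ ^ (2 * k) : ℝ) : ℂ) =
      (∑ i ∈ Finset.Icc 1 N, ee (t i)) ^ k * conj ((∑ i ∈ Finset.Icc 1 N, ee (t i)) ^ k) := by
    rw [Complex.mul_conj, Complex.normSq_eq_norm_sq, norm_pow]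
    congr 1
    rw [← pow_mul]
    congr 1
    ring
  rw [h1, pow_expand, map_sum, Finset.sum_mul_sum, ← Finset.sum_product']
  refine Finset.sum_congr rfl fun z _ => ?_
  rw [← ee_neg, ← ee_add]
  congr 1

theorem moment (x : ℝ) (N k h B B₀ : ℕ) {W : ℝ} (hW0 : 0 ≤ W)
    (hW : ∀ f ∈ Tu k N, ∀ g ∈ Tu k N, Qp f g ≠ 0 →
      ‖∑ b ∈ Finset.Icc 1 B, ee (x * (((C (h : ℤ) * Qp f g).eval ((b + B₀ : ℕ) : ℤ) : ℤ) : ℝ))‖ ≤ W) :
    ∑ b ∈ Finset.Icc 1 B, ‖∑ i ∈ Finset.Icc 1 N, ee (h * (x * ((b + B₀ : ℕ) : ℝ) ^ i))‖ ^ (2 * k) ≤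
      (k.factorial * N ^ k : ℕ) * B + (N : ℝ) ^ (2 * k) * W := by
  classical
  have h1 : ((∑ b ∈ Finset.Icc 1 B,
      ‖∑ i ∈ Finset.Icc 1 N, ee (h * (x * ((b + B₀ : ℕ) : ℝ) ^ i))‖ ^ (2 * k) : ℝ) : ℂ) =
      ∑ z ∈ Tu k N ×ˢ Tu k N, ∑ b ∈ Finset.Icc 1 B,
        ee (x * (((C (h : ℤ) * Qp z.1 z.2).eval ((b + B₀ : ℕ) : ℤ) : ℤ) : ℝ)) := by
    rw [Complex.ofReal_sum]
    simp only [norm_pow_expand]
    rw [Finset.sum_comm]
    refine Finset.sum_congr rfl fun z _ => Finset.sum_congr rfl fun b _ => ?_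
    congr 1
    unfold Qp
    simp only [eval_mul, eval_C, eval_sub, eval_finsetSum, eval_pow, eval_X]
    push_cast
    rw [mul_sub, mul_sub, Finset.mul_sum, Finset.mul_sum, Finset.mul_sum, Finset.mul_sum]
    congr 1
    · exact Finset.sum_congr rfl fun j _ => by ring
    · exact Finset.sum_congr rfl fun j _ => by ring
  have h2 : ∑ b ∈ Finset.Icc 1 B,
      ‖∑ i ∈ Finset.Icc 1 N, ee (h * (x * ((b + B₀ : ℕ) : ℝ) ^ i))‖ ^ (2 * k) =
      ‖∑ z ∈ Tu k N ×ˢ Tu k N, ∑ b ∈ Finset.Icc 1 B,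
        ee (x * (((C (h : ℤ) * Qp z.1 z.2).eval ((b + B₀ : ℕ) : ℤ) : ℤ) : ℝ))‖ := by
    rw [← h1, Complex.norm_real, Real.norm_of_nonneg]
    exact Finset.sum_nonneg fun b _ => by positivity
  rw [h2]
  refine (norm_sum_le _ _).trans ?_
  have hcard : (((Tu k N ×ˢ Tu k N).filter fun z => Qp z.1 z.2 = 0).card : ℝ) ≤
      ((k.factorial * N ^ k : ℕ) : ℝ) := by
    have h3 : ((Tu k N ×ˢ Tu k N).filter fun z => Qp z.1 z.2 = 0).card ≤
        ∑ f ∈ Tu k N, k.factorial := by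
      rw [Finset.card_filter, Finset.sum_product]
      refine Finset.sum_le_sum fun f _ => ?_
      rw [← Finset.card_filter]
      exact card_perm f _ fun g hg => (Finset.mem_filter.1 hg).2
    rw [Finset.sum_const, Pool.Agent.Y901.VK.card_Tu, smul_eq_mul] at h3
    have h4 : ((Tu k N ×ˢ Tu k N).filter fun z => Qp z.1 z.2 = 0).card ≤ k.factorial * N ^ k := by
      rw [mul_comm]; exact h3
    exact_mod_cast h4
  calc _ ≤ ∑ z ∈ Tu k N ×ˢ Tu k N, ((if Qp z.1 z.2 = 0 then (B : ℝ) else 0) + W) := by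
        refine Finset.sum_le_sum fun z hz => ?_
        rw [Finset.mem_product] at hz
        split_ifs with h5
        · refine (norm_sum_le _ _).trans ?_
          simp only [norm_ee, Finset.sum_const, Nat.card_Icc, nsmul_eq_mul, Nat.add_sub_cancel, mul_one]
          linarith
        · rw [zero_add]
          exact hW _ hz.1 _ hz.2 h5
    _ = (((Tu k N ×ˢ Tu k N).filter fun z => Qp z.1 z.2 = 0).card : ℝ) * B +
        ((N : ℝ) ^ k * (N : ℝ) ^ k) * W := by
        rw [Finset.sum_add_distrib, ← Finset.sum_filter, Finset.sum_const, Finset.sum_const,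
          nsmul_eq_mul, nsmul_eq_mul, Finset.card_product, Pool.Agent.Y901.VK.card_Tu]
        push_cast
        ring
    _ ≤ _ := by
        have e : (N : ℝ) ^ (2 * k) = (N : ℝ) ^ k * (N : ℝ) ^ k := by rw [← pow_add]; congr 1; ring
        rw [e]
        have : (((Tu k N ×ˢ Tu k N).filter fun z => Qp z.1 z.2 = 0).card : ℝ) * B ≤
            ((k.factorial * N ^ k : ℕ) : ℝ) * B := mul_le_mul_of_nonneg_right hcard (Nat.cast_nonneg _)
        linarith

/-- Markov's inequality -/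
theorem markov (S : Finset ℕ) (F : ℕ → ℝ) (hF : ∀ b, 0 ≤ F b) {T : ℝ} (hT : 0 < T) (k : ℕ) {R : ℝ}
    (hR : ∑ b ∈ S, F b ^ (2 * k) ≤ R) :
    ((S.filter fun b => T ≤ F b).card : ℝ) ≤ R / T ^ (2 * k) := by
  rw [le_div_iff₀ (by positivity)]
  refine le_trans ?_ hR
  calc ((S.filter fun b => T ≤ F b).card : ℝ) * T ^ (2 * k) =
        ∑ b ∈ S.filter (fun b => T ≤ F b), T ^ (2 * k) := by rw [Finset.sum_const, nsmul_eq_mul]
    _ ≤ ∑ b ∈ S.filter (fun b => T ≤ F b), F b ^ (2 * k) :=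
        Finset.sum_le_sum fun b hb => pow_le_pow_left₀ hT.le (Finset.mem_filter.1 hb).2 _
    _ ≤ _ := Finset.sum_le_sum_of_subset_of_nonneg (Finset.filter_subset _ _)
        fun b _ _ => pow_nonneg (hF b) _

/-- the Weyl sums of the moments -/
theorem weyl_Qp {x : ℝ} {B B₀ N k h : ℕ} {Λ W : ℝ} (hh : 1 ≤ h)
    (hw : ∀ Q : ℤ[X], 1 ≤ Q.natDegree → (Q.natDegree : ℝ) ≤ N → |(Q.leadingCoeff : ℝ)| ≤ Λ →
      ‖∑ b ∈ Finset.Icc 1 B, ee (x * ((Q.eval (b : ℤ) : ℤ) : ℝ))‖ ≤ W) (hk : (h : ℝ) * k ≤ Λ)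
    (f : Fin k → ℕ) (hf : f ∈ Tu k N) (g : Fin k → ℕ) (hg : g ∈ Tu k N) (hne : Qp f g ≠ 0) :
    ‖∑ b ∈ Finset.Icc 1 B, ee (x * (((C (h : ℤ) * Qp f g).eval ((b + B₀ : ℕ) : ℤ) : ℤ) : ℝ))‖ ≤ W := by
  have hf' : ∀ j, 1 ≤ f j ∧ f j ≤ N := fun j => by
    have := Fintype.mem_piFinset.1 hf j
    exact Finset.mem_Icc.1 this
  have hg' : ∀ j, 1 ≤ g j ∧ g j ≤ N := fun j => by
    have := Fintype.mem_piFinset.1 hg j
    exact Finset.mem_Icc.1 this
  have hC : (C (h : ℤ) : ℤ[X]) ≠ 0 := by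
    rw [Ne, C_eq_zero]
    exact_mod_cast (by omega : h ≠ 0)
  have hQ0 : C (h : ℤ) * Qp f g ≠ 0 := mul_ne_zero hC hne
  have hdeg : (C (h : ℤ) * Qp f g).natDegree = (Qp f g).natDegree := by
    rw [natDegree_mul hC hne, natDegree_C, zero_add]
  have hle : (Qp f g).natDegree ≤ N := by
    unfold Qp
    refine (natDegree_sub_le _ _).trans (max_le ?_ ?_)
    · exact natDegree_sum_le_of_forall_le _ _ fun j _ => by
        rw [natDegree_X_pow]; exact (hf' j).2
    · exact natDegree_sum_le_of_forall_le _ _ fun j _ => by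
        rw [natDegree_X_pow]; exact (hg' j).2
  have h0 : (Qp f g).coeff 0 = 0 := by
    unfold Qp
    rw [coeff_sub, finsetSum_coeff, finsetSum_coeff]
    have e1 : ∀ j, ((X : ℤ[X]) ^ f j).coeff 0 = 0 := fun j => by
      rw [coeff_X_pow, if_neg (by have := (hf' j).1; omega)]
    have e2 : ∀ j, ((X : ℤ[X]) ^ g j).coeff 0 = 0 := fun j => by
      rw [coeff_X_pow, if_neg (by have := (hg' j).1; omega)]
    simp only [e1, e2, Finset.sum_const_zero, sub_zero]
  have hge : 1 ≤ (Qp f g).natDegree := by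
    by_contra hcon
    have h1 : (Qp f g).natDegree = 0 := by omega
    apply hne
    rw [eq_C_of_natDegree_eq_zero h1, h0, C_0]
  have hev : ∀ b : ℕ, (C (h : ℤ) * Qp f g).eval ((b + B₀ : ℕ) : ℤ) =
      (taylor (B₀ : ℤ) (C (h : ℤ) * Qp f g)).eval (b : ℤ) := by
    intro b
    rw [taylor_eval]
    push_cast
    rfl
  simp only [hev]
  refine hw _ (by rw [natDegree_taylor, hdeg]; exact hge)
    (by rw [natDegree_taylor, hdeg]; exact_mod_cast hle) ?_
  rw [leadingCoeff, natDegree_taylor, coeff_taylor_natDegree, leadingCoeff_mul, leadingCoeff_C]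
  push_cast
  rw [abs_mul]
  have h1 : |((Qp f g).leadingCoeff : ℝ)| ≤ k := by
    have := Qp_coeff f g (Qp f g).natDegree
    exact_mod_cast this
  have h2 : |((h : ℕ) : ℝ)| = h := abs_of_nonneg (Nat.cast_nonneg h)
  rw [h2]
  calc (h : ℝ) * |((Qp f g).leadingCoeff : ℝ)| ≤ h * k := by gcongr
    _ ≤ Λ := hk

end Pool.Agent.X121.AB
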