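import Pool.Agent.X121.AB.TTop

set_option autoImplicit false

namespace Pool.Agent.X121.AB

open Finset Pool.Agent.Y957.VK Filter

theorem ev_pow_exp (C : ℝ) (n : ℕ) {ε : ℝ} (hε : 0 < ε) :
    ∀ᶠ y : ℝ in atTop, C * y ^ n * Real.exp (-y) ≤ ε := by
  have h := (Real.tendsto_pow_mul_exp_neg_atTop_nhds_zero n).const_mul C
  rw [mul_zero] at h
  filter_upwards [h.eventually_lt_const hε] with y hy
  have : C * y ^ n * Real.exp (-y) = C * (y ^ n * Real.exp (-y)) := by ring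
  rw [this]
  exact hy.le

theorem ev_pow_ge (C κ : ℝ) (hκ : 0 < κ) (n : ℕ) (hn : n ≠ 0) :
    ∀ᶠ y : ℝ in atTop, C ≤ κ * y ^ n := by
  have h := (tendsto_pow_atTop (α := ℝ) hn).const_mul_atTop hκ
  exact h.eventually_ge_atTop C

theorem TT_small {x c : ℝ} {τ : ℕ} (hc : 0 < c) (hc1 : c ≤ 1) (hx : FT x c τ) {κ : ℝ} (hκ : 0 < κ) :
    ∀ᶠ y : ℝ in atTop, ∀ (r d L : ℕ) (h : ℤ) (α : ℕ → ℝ), 2 ≤ r → (r : ℝ) ≤ y ^ 10 →
      d ∈ Finset.Icc 1 r → 1 ≤ L → κ * y ^ 70 ≤ Real.log L → h ≠ 0 → |(h : ℝ)| ≤ y ^ 70 →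
      α d = x * h →
      ‖TT r (L ^ (τ + 1)) α‖ ≤ (((L ^ (τ + 1) : ℕ) : ℝ)) ^ 2 * Real.exp (-(y ^ 21)) := by
  filter_upwards [eventually_ge_atTop (1 : ℝ), ev_pow_exp (2 * (τ + 1)) 20 (ε := 1 / 4) (by norm_num),
    ev_pow_ge (4 * (112518 + |Real.log (3 / c)| + 70 * τ)) κ hκ 4 (by norm_num),
    ev_pow_ge 72 κ hκ 7 (by norm_num)] with y hy1 hy2 hy3 hy4
  intro r d L h α hr hry hd hL hℓ hh hhy hα
  have hy0 : (0 : ℝ) < y := by linarith
  obtain ⟨K, hK⟩ : ∃ K : ℕ, K = ⌈y⌉₊ := ⟨_, rfl⟩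
  have hKy : y ≤ K := by rw [hK]; exact Nat.le_ceil y
  have hK2 : (K : ℝ) ≤ 2 * y := by
    have := Nat.ceil_lt_add_one hy0.le
    rw [← hK] at this
    linarith
  have hr2 : (2 : ℝ) ≤ r := by exact_mod_cast hr
  have hr0 : (0 : ℝ) < r := by linarith
  have hmain := TT_top hc hc1 hx hh hr hd (m := r * K) hL α hα
  obtain ⟨s, hs⟩ : ∃ s : ℕ, s = r ^ 2 + r * (r * K) := ⟨_, rfl⟩
  have hs1 : 1 ≤ s := by rw [hs]; have : 1 ≤ r ^ 2 := Nat.one_le_pow _ _ (by omega); omega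
  obtain ⟨M, hM⟩ : ∃ M : ℕ, M = L ^ (τ + 1) := ⟨_, rfl⟩
  have hM1 : 1 ≤ M := by rw [hM]; exact Nat.one_le_pow _ _ hL
  have hM0 : (0 : ℝ) < M := by exact_mod_cast hM1
  have hL0 : (0 : ℝ) < L := by exact_mod_cast hL
  rw [← hM, ← hs] at hmain
  rw [← hM]
  obtain ⟨ℓ, hℓd⟩ : ∃ ℓ : ℝ, ℓ = Real.log L := ⟨_, rfl⟩
  rw [← hℓd] at hℓ
  have hℓ0 : 0 < ℓ := lt_of_lt_of_le (by positivity) hℓ
  have hLe : (L : ℝ) = Real.exp ℓ := by rw [hℓd, Real.exp_log hL0]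
  have hMe : (M : ℝ) = Real.exp ((τ + 1) * ℓ) := by
    rw [hM]
    push_cast
    rw [hLe, ← Real.exp_nat_mul]
    push_cast
    rfl
  -- powers of y
  have yp : ∀ a b : ℕ, a ≤ b → y ^ a ≤ y ^ b := fun a b hab => pow_le_pow_right₀ hy1 hab
  have hy1' : ∀ a : ℕ, 1 ≤ y ^ a := fun a => one_le_pow₀ hy1
  have hm : (((r * K : ℕ)) : ℝ) ≤ 2 * y ^ 11 := by
    push_cast
    calc (r : ℝ) * K ≤ y ^ 10 * (2 * y) := mul_le_mul hry hK2 (Nat.cast_nonneg _) (by positivity)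
      _ = 2 * y ^ 11 := by ring
  have hsR : (s : ℝ) ≤ 3 * y ^ 21 := by
    have e : (s : ℝ) = (r : ℝ) ^ 2 + r * ((r * K : ℕ) : ℝ) := by rw [hs]; push_cast; ring
    rw [e]
    have h1 : (r : ℝ) ^ 2 ≤ y ^ 21 := by
      calc (r : ℝ) ^ 2 ≤ (y ^ 10) ^ 2 := pow_le_pow_left₀ hr0.le hry 2
        _ = y ^ 20 := by ring
        _ ≤ y ^ 21 := yp _ _ (by norm_num)
    have h2 : (r : ℝ) * ((r * K : ℕ) : ℝ) ≤ 2 * y ^ 21 := by
      calc (r : ℝ) * ((r * K : ℕ) : ℝ) ≤ y ^ 10 * (2 * y ^ 11) :=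
            mul_le_mul hry hm (Nat.cast_nonneg _) (by positivity)
        _ = 2 * y ^ 21 := by ring
    linarith
  -- first factor
  have f1 : Real.exp (18 * ((r * K : ℕ) : ℝ) * ((r : ℝ) + ((r * K : ℕ) : ℝ) + 2) ^ 5) ≤
      Real.exp (112500 * y ^ 66) := by
    apply Real.exp_le_exp.2
    have h1 : (r : ℝ) + ((r * K : ℕ) : ℝ) + 2 ≤ 5 * y ^ 11 := by
      have := yp 10 11 (by norm_num)
      have := hy1' 11
      linarith
    calc 18 * ((r * K : ℕ) : ℝ) * ((r : ℝ) + ((r * K : ℕ) : ℝ) + 2) ^ 5 ≤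
        18 * (2 * y ^ 11) * (5 * y ^ 11) ^ 5 := by
          apply mul_le_mul
          · linarith
          · exact pow_le_pow_left₀ (by positivity) h1 5
          · positivity
          · positivity
      _ = 112500 * y ^ 66 := by ring
  -- second factor
  have f2 : ((3 * s : ℕ) : ℝ) ^ (2 * r) ≤ Real.exp (18 * y ^ 66) := by
    have h1 : ((3 * s : ℕ) : ℝ) ≤ Real.exp (9 * y ^ 21) := by
      have : ((3 * s : ℕ) : ℝ) ≤ 9 * y ^ 21 := by push_cast; linarith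
      have h2 := Real.add_one_le_exp (9 * y ^ 21)
      linarith
    calc ((3 * s : ℕ) : ℝ) ^ (2 * r) ≤ (Real.exp (9 * y ^ 21)) ^ (2 * r) :=
          pow_le_pow_left₀ (Nat.cast_nonneg _) h1 _
      _ = Real.exp (((2 * r : ℕ) : ℝ) * (9 * y ^ 21)) := by rw [← Real.exp_nat_mul]
      _ ≤ Real.exp (18 * y ^ 66) := by
          apply Real.exp_le_exp.2
          push_cast
          calc 2 * (r : ℝ) * (9 * y ^ 21) ≤ 2 * y ^ 10 * (9 * y ^ 21) := by gcongr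
            _ = 18 * y ^ 31 := by ring
            _ ≤ 18 * y ^ 66 := by
                have := yp 31 66 (by norm_num)
                linarith
  -- third factor
  have f3 : (M : ℝ) ^ ((r : ℝ) * (r + 1) * (1 - 1 / (r : ℝ)) ^ (r * K)) ≤ Real.exp (ℓ / 4) := by
    rw [hMe, ← Real.exp_mul]
    apply Real.exp_le_exp.2
    have h0 : (0 : ℝ) ≤ 1 - 1 / (r : ℝ) := by
      rw [sub_nonneg, div_le_one hr0]
      linarith
    have h1 : (1 - 1 / (r : ℝ)) ^ (r * K) ≤ Real.exp (-y) := by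
      calc (1 - 1 / (r : ℝ)) ^ (r * K) ≤ (Real.exp (-(1 / (r : ℝ)))) ^ (r * K) := by
            apply pow_le_pow_left₀ h0
            have := Real.add_one_le_exp (-(1 / (r : ℝ)))
            linarith
        _ = Real.exp (((r * K : ℕ) : ℝ) * (-(1 / (r : ℝ)))) := by rw [← Real.exp_nat_mul]
        _ = Real.exp (-(K : ℝ)) := by
            congr 1
            push_cast
            field_simp
        _ ≤ Real.exp (-y) := Real.exp_le_exp.2 (by linarith)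
    have h2 : (r : ℝ) * (r + 1) ≤ 2 * y ^ 20 := by
      have h3 : (r : ℝ) + 1 ≤ 2 * y ^ 10 := by have := hy1' 10; linarith
      calc (r : ℝ) * (r + 1) ≤ y ^ 10 * (2 * y ^ 10) := mul_le_mul hry h3 (by positivity) (by positivity)
        _ = 2 * y ^ 20 := by ring
    have h3 : (r : ℝ) * (r + 1) * (1 - 1 / (r : ℝ)) ^ (r * K) ≤ 2 * y ^ 20 * Real.exp (-y) :=
      mul_le_mul h2 h1 (by positivity) (by positivity)
    calc (↑τ + 1) * ℓ * ((r : ℝ) * (r + 1) * (1 - 1 / (r : ℝ)) ^ (r * K)) ≤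
        (↑τ + 1) * ℓ * (2 * y ^ 20 * Real.exp (-y)) := by gcongr
      _ = (2 * (↑τ + 1) * y ^ 20 * Real.exp (-y)) * ℓ := by ring
      _ ≤ 1 / 4 * ℓ := by gcongr
      _ = ℓ / 4 := by ring
  -- fourth factor
  have f4 : 3 * |(h : ℝ)| ^ τ / (c * L) ≤ Real.exp (|Real.log (3 / c)| + 70 * τ * y - ℓ) := by
    have h1 : |(h : ℝ)| ^ τ ≤ Real.exp (70 * τ * y) := by
      calc |(h : ℝ)| ^ τ ≤ (y ^ 70) ^ τ := pow_le_pow_left₀ (abs_nonneg _) hhy _
        _ ≤ ((Real.exp y) ^ 70) ^ τ := by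
            apply pow_le_pow_left₀ (by positivity)
            apply pow_le_pow_left₀ hy0.le
            have := Real.add_one_le_exp y
            linarith
        _ = Real.exp (70 * τ * y) := by
            rw [← Real.exp_nat_mul, ← Real.exp_nat_mul]
            congr 1
            push_cast
            ring
    have h2 : 3 / c ≤ Real.exp |Real.log (3 / c)| := by
      calc 3 / c = Real.exp (Real.log (3 / c)) := (Real.exp_log (by positivity)).symm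
        _ ≤ _ := Real.exp_le_exp.2 (le_abs_self _)
    rw [Real.exp_sub, Real.exp_add, ← hLe]
    calc 3 * |(h : ℝ)| ^ τ / (c * L) = (3 / c) * |(h : ℝ)| ^ τ / L := by field_simp
      _ ≤ Real.exp |Real.log (3 / c)| * Real.exp (70 * τ * y) / L := by gcongr
  -- all together
  have hE : Real.exp (18 * ((r * K : ℕ) : ℝ) * ((r : ℝ) + ((r * K : ℕ) : ℝ) + 2) ^ 5) *
      ((3 * s : ℕ) : ℝ) ^ (2 * r) *
      (M : ℝ) ^ ((r : ℝ) * (r + 1) * (1 - 1 / (r : ℝ)) ^ (r * K)) *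
      (3 * |(h : ℝ)| ^ τ / (c * L)) ≤ Real.exp (-(ℓ / 2)) := by
    calc _ ≤ Real.exp (112500 * y ^ 66) * Real.exp (18 * y ^ 66) * Real.exp (ℓ / 4) *
          Real.exp (|Real.log (3 / c)| + 70 * τ * y - ℓ) := by gcongr
      _ = Real.exp (112500 * y ^ 66 + 18 * y ^ 66 + ℓ / 4 + (|Real.log (3 / c)| + 70 * τ * y - ℓ)) := by
          rw [Real.exp_add, Real.exp_add, Real.exp_add]
      _ ≤ Real.exp (-(ℓ / 2)) := by
          apply Real.exp_le_exp.2
          have h1 : 112518 * y ^ 66 + |Real.log (3 / c)| + 70 * τ * y ≤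
              (112518 + |Real.log (3 / c)| + 70 * τ) * y ^ 66 := by
            have a1 := hy1' 66
            have a2 : y ≤ y ^ 66 := by
              calc y = y ^ 1 := (pow_one y).symm
                _ ≤ y ^ 66 := yp 1 66 (by norm_num)
            have a3 : 0 ≤ |Real.log (3 / c)| := abs_nonneg _
            have a4 : (0 : ℝ) ≤ 70 * τ := by positivity
            have b1 : |Real.log (3 / c)| ≤ |Real.log (3 / c)| * y ^ 66 := le_mul_of_one_le_right a3 a1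
            have b2 : 70 * τ * y ≤ 70 * τ * y ^ 66 := mul_le_mul_of_nonneg_left a2 a4
            nlinarith
          have h2 : (112518 + |Real.log (3 / c)| + 70 * τ) * y ^ 66 ≤ ℓ / 4 := by
            have h3 : 4 * (112518 + |Real.log (3 / c)| + 70 * τ) * y ^ 66 ≤ κ * y ^ 4 * y ^ 66 :=
              mul_le_mul_of_nonneg_right hy3 (by positivity)
            have h4 : κ * y ^ 4 * y ^ 66 = κ * y ^ 70 := by ring
            rw [h4] at h3
            linarith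
          linarith
  have hfin : ‖TT r M α‖ ^ (4 * s ^ 2) ≤ ((M : ℝ) ^ 2 * Real.exp (-(y ^ 21))) ^ (4 * s ^ 2) := by
    refine hmain.trans ?_
    rw [mul_pow, ← pow_mul, show 2 * (4 * s ^ 2) = 8 * s ^ 2 by ring]
    apply mul_le_mul_of_nonneg_left _ (by positivity)
    refine hE.trans ?_
    rw [← Real.exp_nat_mul]
    apply Real.exp_le_exp.2
    push_cast
    have h1 : (s : ℝ) ^ 2 ≤ 9 * y ^ 42 := by
      calc (s : ℝ) ^ 2 ≤ (3 * y ^ 21) ^ 2 := pow_le_pow_left₀ (Nat.cast_nonneg _) hsR 2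
        _ = 9 * y ^ 42 := by ring
    have h2 : 4 * (s : ℝ) ^ 2 * y ^ 21 ≤ 36 * y ^ 63 := by
      calc 4 * (s : ℝ) ^ 2 * y ^ 21 ≤ 4 * (9 * y ^ 42) * y ^ 21 := by gcongr
        _ = 36 * y ^ 63 := by ring
    have h3 : 72 * y ^ 63 ≤ κ * y ^ 7 * y ^ 63 := mul_le_mul_of_nonneg_right hy4 (by positivity)
    have h4 : κ * y ^ 7 * y ^ 63 = κ * y ^ 70 := by ring
    rw [h4] at h3
    linarith
  exact le_of_pow_le_pow_left₀ (by have : 1 ≤ s ^ 2 := Nat.one_le_pow _ _ hs1; omega) (by positivity) hfin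

end Pool.Agent.X121.AB
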