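import Pool.Agent.X121.AB.WJ

set_option autoImplicit false

namespace Pool.Agent.X121.AB

open Finset Pool.Agent.Y957.VK

theorem prod_sq (s M r : ℕ) : ∏ j ∈ Finset.Icc 1 r, (((3 * (s * M ^ j) : ℕ) : ℝ)) ^ 2 =
    ((3 * s : ℕ) : ℝ) ^ (2 * r) * (M : ℝ) ^ (r * (r + 1)) := by
  induction r with
  | zero => simp
  | succ r ih =>
    rw [Finset.prod_Icc_succ_top (by omega), ih]
    push_cast
    ring

theorem WJ_nonneg (s M j : ℕ) (a : ℝ) : 0 ≤ WJ s M j a :=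
  Finset.sum_nonneg fun _ _ => Pool.Agent.Y93.VK.mn_nonneg _ _

theorem prod_WJ {x c : ℝ} {τ : ℕ} (hc : 0 < c) (hc1 : c ≤ 1) (hx : FT x c τ) {h : ℤ} (hh : h ≠ 0)
    {s M r d L : ℕ} (hs : 1 ≤ s) (hM : 1 ≤ M) (hd : d ∈ Finset.Icc 1 r) (hL : 1 ≤ L)
    (hLM : L ^ (τ + 1) ≤ M) (α : ℕ → ℝ) (hα : α d = x * h) :
    ∏ j ∈ Finset.Icc 1 r, WJ s M j (α j) ≤
      (((3 * s : ℕ) : ℝ) ^ (2 * r) * (M : ℝ) ^ (r * (r + 1))) * (3 * |(h : ℝ)| ^ τ / (c * L)) := by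
  classical
  have hL0 : (0 : ℝ) < L := by exact_mod_cast hL
  rw [← prod_sq, ← Finset.mul_prod_erase _ _ hd, ← Finset.mul_prod_erase (Finset.Icc 1 r)
    (fun j => (((3 * (s * M ^ j) : ℕ) : ℝ)) ^ 2) hd]
  have h2 : ∀ j, (2 * ((s * M ^ j : ℕ) : ℝ) + 1) ^ 2 ≤ (((3 * (s * M ^ j) : ℕ) : ℝ)) ^ 2 := by
    intro j
    have h3 : 1 ≤ s * M ^ j := Nat.mul_pos hs (pow_pos hM j)
    have h4 : (1 : ℝ) ≤ ((s * M ^ j : ℕ) : ℝ) := by exact_mod_cast h3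
    have h5 : (((3 * (s * M ^ j) : ℕ) : ℝ)) = 3 * ((s * M ^ j : ℕ) : ℝ) := by push_cast; ring
    rw [h5]
    apply pow_le_pow_left₀ (by positivity)
    linarith
  have h3 : WJ s M d (α d) ≤ (((3 * (s * M ^ d) : ℕ) : ℝ)) ^ 2 * (3 * |(h : ℝ)| ^ τ / (c * L)) := by
    rw [hα]
    have hle : L ^ (τ + 1) ≤ s * M ^ d := by
      have h5 : M ≤ M ^ d := Nat.le_self_pow (by have := Finset.mem_Icc.1 hd; omega) M
      calc L ^ (τ + 1) ≤ M := hLM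
        _ ≤ M ^ d := h5
        _ ≤ s * M ^ d := Nat.le_mul_of_pos_left _ hs
    refine (WJ_top hc hc1 hx hh s M d L hL hle).trans ?_
    apply mul_le_mul_of_nonneg_right (h2 d) (by positivity)
  have h4 : ∏ j ∈ (Finset.Icc 1 r).erase d, WJ s M j (α j) ≤
      ∏ j ∈ (Finset.Icc 1 r).erase d, (((3 * (s * M ^ j) : ℕ) : ℝ)) ^ 2 :=
    Finset.prod_le_prod (fun j _ => WJ_nonneg _ _ _ _) fun j _ =>
      ((Pool.Agent.Y331.VK.wb s M j (α j) hs hM).1).trans (h2 j)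
  calc _ ≤ ((((3 * (s * M ^ d) : ℕ) : ℝ)) ^ 2 * (3 * |(h : ℝ)| ^ τ / (c * L))) *
        ∏ j ∈ (Finset.Icc 1 r).erase d, (((3 * (s * M ^ j) : ℕ) : ℝ)) ^ 2 :=
        mul_le_mul h3 h4 (Finset.prod_nonneg fun j _ => WJ_nonneg _ _ _ _) (by positivity)
    _ = _ := by ring

theorem TT_top {x c : ℝ} {τ : ℕ} (hc : 0 < c) (hc1 : c ≤ 1) (hx : FT x c τ) {h : ℤ} (hh : h ≠ 0)
    {r d m L : ℕ} (hr : 2 ≤ r) (hd : d ∈ Finset.Icc 1 r) (hL : 1 ≤ L) (α : ℕ → ℝ)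
    (hα : α d = x * h) :
    ‖TT r (L ^ (τ + 1)) α‖ ^ (4 * (r ^ 2 + r * m) ^ 2) ≤
      (((L ^ (τ + 1) : ℕ) : ℝ)) ^ (8 * (r ^ 2 + r * m) ^ 2) *
        (Real.exp (18 * m * ((r : ℝ) + m + 2) ^ 5) * ((3 * (r ^ 2 + r * m) : ℕ) : ℝ) ^ (2 * r) *
          (((L ^ (τ + 1) : ℕ) : ℝ)) ^ ((r : ℝ) * (r + 1) * (1 - 1 / (r : ℝ)) ^ m) *
          (3 * |(h : ℝ)| ^ τ / (c * L))) := by
  obtain ⟨M, hM⟩ : ∃ M : ℕ, M = L ^ (τ + 1) := ⟨_, rfl⟩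
  obtain ⟨s, hs⟩ : ∃ s : ℕ, s = r ^ 2 + r * m := ⟨_, rfl⟩
  have hM1 : 1 ≤ M := by rw [hM]; exact Nat.one_le_pow _ _ hL
  have hs1 : 1 ≤ s := by rw [hs]; have : 1 ≤ r ^ 2 := Nat.one_le_pow _ _ (by omega); omega
  have hJ := Pool.Agent.Y901.VK.main rec_all Pool.Agent.Y911.VK.cond hr m M hM1
  rw [← hs] at hJ ⊢
  rw [← hM]
  have h1 := dbl_all s r M α hs1 (by omega) hM1
  have h2 := prod_WJ hc hc1 hx hh hs1 hM1 hd hL hM.ge α hα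
  have hM0 : (0 : ℝ) < M := by exact_mod_cast hM1
  have hJ2 : (J s r M : ℝ) ^ 2 ≤ Real.exp (18 * m * ((r : ℝ) + m + 2) ^ 5) *
      (M : ℝ) ^ (2 * Pool.Agent.Y901.VK.Ee r m) := by
    calc (J s r M : ℝ) ^ 2 ≤ (Real.exp (9 * m * ((r : ℝ) + m + 2) ^ 5) *
          (M : ℝ) ^ Pool.Agent.Y901.VK.Ee r m) ^ 2 := pow_le_pow_left₀ (Nat.cast_nonneg _) hJ 2
      _ = _ := by
          rw [mul_pow, ← Real.exp_nat_mul, ← Real.rpow_natCast ((M : ℝ) ^ _), ← Real.rpow_mul hM0.le]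
          congr 2
          · push_cast; ring
          · push_cast; ring
  refine h1.trans ?_
  have hsR : (s : ℝ) = (r : ℝ) ^ 2 + r * m := by rw [hs]; push_cast; ring
  have h48 : 4 * s ≤ 8 * s ^ 2 := by nlinarith
  have hpow : (M : ℝ) ^ (8 * s ^ 2 - 4 * s) * (M : ℝ) ^ (2 * Pool.Agent.Y901.VK.Ee r m) *
      (M : ℝ) ^ (r * (r + 1)) =
      (M : ℝ) ^ (8 * s ^ 2) * (M : ℝ) ^ ((r : ℝ) * (r + 1) * (1 - 1 / (r : ℝ)) ^ m) := by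
    rw [← Real.rpow_natCast (M : ℝ) (8 * s ^ 2 - 4 * s), ← Real.rpow_natCast (M : ℝ) (r * (r + 1)),
      ← Real.rpow_natCast (M : ℝ) (8 * s ^ 2), ← Real.rpow_add hM0, ← Real.rpow_add hM0,
      ← Real.rpow_add hM0]
    congr 1
    rw [Nat.cast_sub h48]
    unfold Pool.Agent.Y901.VK.Ee
    push_cast
    rw [hsR]
    ring
  calc (M : ℝ) ^ (8 * s ^ 2 - 4 * s) * (J s r M : ℝ) ^ 2 * ∏ j ∈ Finset.Icc 1 r, WJ s M j (α j)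
      ≤ (M : ℝ) ^ (8 * s ^ 2 - 4 * s) * (Real.exp (18 * m * ((r : ℝ) + m + 2) ^ 5) *
      (M : ℝ) ^ (2 * Pool.Agent.Y901.VK.Ee r m)) * ((((3 * s : ℕ) : ℝ) ^ (2 * r) *
        (M : ℝ) ^ (r * (r + 1))) * (3 * |(h : ℝ)| ^ τ / (c * L))) := by
        apply mul_le_mul _ h2 (Finset.prod_nonneg fun j _ => WJ_nonneg _ _ _ _) (by positivity)
        exact mul_le_mul_of_nonneg_left hJ2 (by positivity)
    _ = ((M : ℝ) ^ (8 * s ^ 2 - 4 * s) * (M : ℝ) ^ (2 * Pool.Agent.Y901.VK.Ee r m) *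
      (M : ℝ) ^ (r * (r + 1))) * (Real.exp (18 * m * ((r : ℝ) + m + 2) ^ 5) *
        ((3 * s : ℕ) : ℝ) ^ (2 * r) * (3 * |(h : ℝ)| ^ τ / (c * L))) := by ring
    _ = _ := by rw [hpow]; ring

end Pool.Agent.X121.AB
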