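import Pool.Agent.X121.AB.TSmall

set_option autoImplicit false

namespace Pool.Agent.X121.AB

open Finset Pool.Agent.Y957.VK Filter Polynomial
open Pool.Agent.Y93.VK (ee ee_add norm_ee)

theorem shift_one (F : ℕ → ℂ) (hF : ∀ n, ‖F n‖ ≤ 1) (B w : ℕ) :
    ‖∑ b ∈ Finset.Icc 1 B, F (b + w) - ∑ b ∈ Finset.Icc 1 B, F (b + (w + 1))‖ ≤ 2 := by
  have h1 : ∀ G : ℕ → ℂ, ∑ b ∈ Finset.Icc 1 B, G b = ∑ i ∈ Finset.range B, G (i + 1) := by
    intro G
    rw [Finset.range_eq_Ico, Finset.sum_Ico_add' (fun i => G i) 0 B 1, zero_add]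
    rfl
  rw [h1 (fun b => F (b + w)), h1 (fun b => F (b + (w + 1)))]
  have h2 : ∑ i ∈ Finset.range B, F (i + 1 + w) + F (B + 1 + w) =
      ∑ i ∈ Finset.range B, F (i + 1 + (w + 1)) + F (0 + 1 + w) := by
    rw [← Finset.sum_range_succ (fun i => F (i + 1 + w)), Finset.sum_range_succ']
    congr 1
    refine Finset.sum_congr rfl fun i _ => ?_
    congr 1
    ring
  have h3 : ∑ i ∈ Finset.range B, F (i + 1 + w) - ∑ i ∈ Finset.range B, F (i + 1 + (w + 1)) =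
      F (0 + 1 + w) - F (B + 1 + w) := by
    linear_combination h2
  rw [h3]
  calc _ ≤ ‖F (0 + 1 + w)‖ + ‖F (B + 1 + w)‖ := norm_sub_le _ _
    _ ≤ 1 + 1 := add_le_add (hF _) (hF _)
    _ = 2 := by norm_num

theorem shift_sum (F : ℕ → ℂ) (hF : ∀ n, ‖F n‖ ≤ 1) (B w : ℕ) :
    ‖∑ b ∈ Finset.Icc 1 B, F b - ∑ b ∈ Finset.Icc 1 B, F (b + w)‖ ≤ 2 * w := by
  induction w with
  | zero => simp
  | succ w ih =>
    have h1 := shift_one F hF B w
    calc _ = ‖(∑ b ∈ Finset.Icc 1 B, F b - ∑ b ∈ Finset.Icc 1 B, F (b + w)) +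
          (∑ b ∈ Finset.Icc 1 B, F (b + w) - ∑ b ∈ Finset.Icc 1 B, F (b + (w + 1)))‖ := by
          congr 1; ring
      _ ≤ 2 * w + 2 := (norm_add_le _ _).trans (add_le_add ih h1)
      _ = _ := by push_cast; ring

/-- shifting a sum by products -/
theorem bilinear (F : ℕ → ℂ) (hF : ∀ n, ‖F n‖ ≤ 1) (B M : ℕ) (hM : 1 ≤ M) {T : ℝ}
    (hT : ∀ b : ℕ, ‖∑ p ∈ Finset.Icc 1 M, ∑ q ∈ Finset.Icc 1 M, F (b + p * q)‖ ≤ T) :
    ‖∑ b ∈ Finset.Icc 1 B, F b‖ ≤ B * T / (M : ℝ) ^ 2 + 2 * (M : ℝ) ^ 2 := by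
  have hM0 : (0 : ℝ) < M := by exact_mod_cast hM
  have h1 : ‖((M : ℂ) ^ 2) * ∑ b ∈ Finset.Icc 1 B, F b -
      ∑ b ∈ Finset.Icc 1 B, ∑ p ∈ Finset.Icc 1 M, ∑ q ∈ Finset.Icc 1 M, F (b + p * q)‖ ≤
      (M : ℝ) ^ 2 * (2 * (M : ℝ) ^ 2) := by
    have e1 : ∑ b ∈ Finset.Icc 1 B, ∑ p ∈ Finset.Icc 1 M, ∑ q ∈ Finset.Icc 1 M, F (b + p * q) =
        ∑ p ∈ Finset.Icc 1 M, ∑ q ∈ Finset.Icc 1 M, ∑ b ∈ Finset.Icc 1 B, F (b + p * q) := by
      rw [Finset.sum_comm]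
      exact Finset.sum_congr rfl fun p _ => Finset.sum_comm
    have e2 : ((M : ℂ) ^ 2) * ∑ b ∈ Finset.Icc 1 B, F b =
        ∑ p ∈ Finset.Icc 1 M, ∑ q ∈ Finset.Icc 1 M, ∑ b ∈ Finset.Icc 1 B, F b := by
      simp only [Finset.sum_const, Nat.card_Icc, Nat.add_sub_cancel, nsmul_eq_mul]
      ring
    rw [e1, e2, ← Finset.sum_sub_distrib]
    refine (norm_sum_le _ _).trans ?_
    calc _ ≤ ∑ p ∈ Finset.Icc 1 M, ((M : ℝ) * (2 * (M : ℝ) ^ 2)) := by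
          refine Finset.sum_le_sum fun p hp => ?_
          rw [← Finset.sum_sub_distrib]
          refine (norm_sum_le _ _).trans ?_
          calc _ ≤ ∑ q ∈ Finset.Icc 1 M, (2 * (M : ℝ) ^ 2) := by
                refine Finset.sum_le_sum fun q hq => ?_
                refine (shift_sum F hF B (p * q)).trans ?_
                have hp' := (Finset.mem_Icc.1 hp).2
                have hq' := (Finset.mem_Icc.1 hq).2
                have : ((p * q : ℕ) : ℝ) ≤ (M : ℝ) ^ 2 := by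
                  have h5 : p * q ≤ M ^ 2 := by rw [pow_two]; exact Nat.mul_le_mul hp' hq'
                  exact_mod_cast h5
                linarith
            _ = _ := by
                rw [Finset.sum_const, Nat.card_Icc, nsmul_eq_mul, Nat.add_sub_cancel]
      _ = _ := by
          rw [Finset.sum_const, Nat.card_Icc, nsmul_eq_mul, Nat.add_sub_cancel]
          ring
  have h2 : ‖∑ b ∈ Finset.Icc 1 B, ∑ p ∈ Finset.Icc 1 M, ∑ q ∈ Finset.Icc 1 M, F (b + p * q)‖ ≤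
      B * T := by
    refine (norm_sum_le _ _).trans ?_
    calc _ ≤ ∑ b ∈ Finset.Icc 1 B, T := Finset.sum_le_sum fun b _ => hT b
      _ = _ := by rw [Finset.sum_const, Nat.card_Icc, nsmul_eq_mul, Nat.add_sub_cancel]
  have h3 : ‖((M : ℂ) ^ 2) * ∑ b ∈ Finset.Icc 1 B, F b‖ ≤ B * T + (M : ℝ) ^ 2 * (2 * (M : ℝ) ^ 2) := by
    calc _ = ‖(((M : ℂ) ^ 2) * ∑ b ∈ Finset.Icc 1 B, F b -
          ∑ b ∈ Finset.Icc 1 B, ∑ p ∈ Finset.Icc 1 M, ∑ q ∈ Finset.Icc 1 M, F (b + p * q)) +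
          ∑ b ∈ Finset.Icc 1 B, ∑ p ∈ Finset.Icc 1 M, ∑ q ∈ Finset.Icc 1 M, F (b + p * q)‖ := by
          congr 1; ring
      _ ≤ (M : ℝ) ^ 2 * (2 * (M : ℝ) ^ 2) + B * T := (norm_add_le _ _).trans (add_le_add h1 h2)
      _ = _ := by ring
  rw [norm_mul, norm_pow, Complex.norm_natCast] at h3
  have h4 : ‖∑ b ∈ Finset.Icc 1 B, F b‖ ≤ (B * T + (M : ℝ) ^ 2 * (2 * (M : ℝ) ^ 2)) / (M : ℝ) ^ 2 := by
    rw [le_div_iff₀ (by positivity)]
    linarith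
  refine h4.trans (le_of_eq ?_)
  field_simp

theorem sum_range_Icc {M : Type*} [AddCommMonoid M] (f : ℕ → M) (r : ℕ) :
    ∑ i ∈ Finset.range (r + 1), f i = f 0 + ∑ i ∈ Finset.Icc 1 r, f i := by
  rw [Finset.range_eq_Ico, Finset.sum_eq_sum_Ico_succ_bot (by omega)]
  rfl

/-- the shifted sums are bilinear Weyl sums -/
theorem to_TT (x : ℝ) (Q : ℤ[X]) {r : ℕ} (hr : Q.natDegree ≤ r) (M b : ℕ) :
    ∑ p ∈ Finset.Icc 1 M, ∑ q ∈ Finset.Icc 1 M, ee (x * ((Q.eval ((b + p * q : ℕ) : ℤ) : ℤ) : ℝ)) =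
      ee (x * ((Q.eval (b : ℤ) : ℤ) : ℝ)) *
        TT r M (fun j => x * (((taylor (b : ℤ) Q).coeff j : ℤ) : ℝ)) := by
  unfold TT
  rw [Finset.mul_sum]
  refine Finset.sum_congr rfl fun p _ => ?_
  rw [Finset.mul_sum]
  refine Finset.sum_congr rfl fun q _ => ?_
  have h1 : Complex.exp (2 * Real.pi * Complex.I * ((∑ j ∈ Finset.Icc 1 r,
      (fun j => x * (((taylor (b : ℤ) Q).coeff j : ℤ) : ℝ)) j * ((p : ℝ) * q) ^ j : ℝ) : ℂ)) =
      ee (∑ j ∈ Finset.Icc 1 r, x * (((taylor (b : ℤ) Q).coeff j : ℤ) : ℝ) * ((p : ℝ) * q) ^ j) := rfl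
  rw [h1, ← ee_add]
  congr 1
  have h2 : Q.eval ((b + p * q : ℕ) : ℤ) = (taylor (b : ℤ) Q).eval ((p * q : ℕ) : ℤ) := by
    rw [taylor_eval]
    congr 1
    push_cast
    ring
  rw [h2, Polynomial.eval_eq_sum_range' (n := r + 1) (by rw [natDegree_taylor]; omega),
    sum_range_Icc, taylor_coeff_zero]
  push_cast
  rw [pow_zero, mul_one, mul_add, Finset.mul_sum]
  congr 1
  refine Finset.sum_congr rfl fun j _ => ?_
  ring

theorem weyl_y {x c : ℝ} {τ : ℕ} (hc : 0 < c) (hc1 : c ≤ 1) (hx : FT x c τ) :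
    ∀ᶠ y : ℝ in atTop, ∀ B : ℕ, (B : ℝ) = Real.exp (y ^ 70) → ∀ Q : ℤ[X], 1 ≤ Q.natDegree →
      (Q.natDegree : ℝ) ≤ y ^ 10 → |(Q.leadingCoeff : ℝ)| ≤ y ^ 70 →
      ‖∑ b ∈ Finset.Icc 1 B, ee (x * ((Q.eval (b : ℤ) : ℤ) : ℝ))‖ ≤ B * Real.exp (-(y ^ 20)) := by
  have hκ : (0 : ℝ) < 1 / (8 * (τ + 1)) := by positivity
  filter_upwards [TT_small hc hc1 hx hκ, eventually_ge_atTop (2 : ℝ),
    ev_pow_ge 2 (1 / (4 * (τ + 1) : ℝ)) (by positivity) 70 (by norm_num)] with y hy1 hy2 hy3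
  intro B hB Q hQ1 hQ2 hQ3
  have hy0 : (0 : ℝ) < y := by linarith
  have hτ : (0 : ℝ) < (τ : ℝ) + 1 := by positivity
  obtain ⟨z, hz⟩ : ∃ z : ℝ, z = 1 / (4 * (τ + 1) : ℝ) * y ^ 70 := ⟨_, rfl⟩
  have hz2 : 2 ≤ z := by rw [hz]; exact hy3
  obtain ⟨L, hL⟩ : ∃ L : ℕ, L = ⌊Real.exp z⌋₊ := ⟨_, rfl⟩
  have hexp : z + 1 ≤ Real.exp z := Real.add_one_le_exp z
  have hL1 : 1 ≤ L := by
    rw [hL, Nat.one_le_floor_iff]
    linarith
  have hL0 : (0 : ℝ) < L := by exact_mod_cast hL1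
  have hLle : (L : ℝ) ≤ Real.exp z := by rw [hL]; exact Nat.floor_le (Real.exp_nonneg z)
  have hLge : Real.exp (z / 2) ≤ L := by
    have h1 : Real.exp z < L + 1 := by rw [hL]; exact Nat.lt_floor_add_one _
    have h2 : Real.exp z = Real.exp (z / 2) * Real.exp (z / 2) := by
      rw [← Real.exp_add]; congr 1; ring
    have h3 : 2 ≤ Real.exp (z / 2) := by
      have := Real.add_one_le_exp (z / 2)
      linarith
    nlinarith
  have hlogL : 1 / (8 * (τ + 1) : ℝ) * y ^ 70 ≤ Real.log L := by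
    have h1 : z / 2 ≤ Real.log L := by
      rw [Real.le_log_iff_exp_le hL0]
      exact hLge
    have h2 : z / 2 = 1 / (8 * (τ + 1) : ℝ) * y ^ 70 := by
      rw [hz]; field_simp; ring
    linarith
  obtain ⟨M, hM⟩ : ∃ M : ℕ, M = L ^ (τ + 1) := ⟨_, rfl⟩
  have hM1 : 1 ≤ M := by rw [hM]; exact Nat.one_le_pow _ _ hL1
  have hM0 : (0 : ℝ) < M := by exact_mod_cast hM1
  have hM2 : (M : ℝ) ^ 2 ≤ Real.exp (y ^ 70 / 2) := by
    have h1 : (M : ℝ) ≤ Real.exp (y ^ 70 / 4) := by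
      rw [hM]
      push_cast
      calc (L : ℝ) ^ (τ + 1) ≤ (Real.exp z) ^ (τ + 1) := pow_le_pow_left₀ hL0.le hLle _
        _ = Real.exp (y ^ 70 / 4) := by
            rw [← Real.exp_nat_mul, hz]
            congr 1
            push_cast
            field_simp
    calc (M : ℝ) ^ 2 ≤ (Real.exp (y ^ 70 / 4)) ^ 2 := pow_le_pow_left₀ hM0.le h1 2
      _ = Real.exp (y ^ 70 / 2) := by
          rw [← Real.exp_nat_mul]
          congr 1
          push_cast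
          ring
  obtain ⟨r, hr⟩ : ∃ r : ℕ, r = max Q.natDegree 2 := ⟨_, rfl⟩
  have hry : (r : ℝ) ≤ y ^ 10 := by
    rw [hr]
    push_cast
    refine max_le hQ2 ?_
    calc (2 : ℝ) ≤ 2 ^ 10 := by norm_num
      _ ≤ y ^ 10 := pow_le_pow_left₀ (by norm_num) hy2 10
  have hQ0 : Q ≠ 0 := by
    rintro rfl
    simp at hQ1
  have key : ∀ b : ℕ, ‖∑ p ∈ Finset.Icc 1 M, ∑ q ∈ Finset.Icc 1 M,
      ee (x * ((Q.eval ((b + p * q : ℕ) : ℤ) : ℤ) : ℝ))‖ ≤ (M : ℝ) ^ 2 * Real.exp (-(y ^ 21)) := by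
    intro b
    rw [to_TT x Q (r := r) (by rw [hr]; exact le_max_left _ _) M b, norm_mul, norm_ee, one_mul, hM]
    refine hy1 r Q.natDegree L Q.leadingCoeff _ (by rw [hr]; exact le_max_right _ _) hry ?_ hL1 hlogL
      (leadingCoeff_ne_zero.2 hQ0) hQ3 ?_
    · rw [Finset.mem_Icc]
      exact ⟨hQ1, by rw [hr]; exact le_max_left _ _⟩
    · show x * (((taylor (b : ℤ) Q).coeff Q.natDegree : ℤ) : ℝ) = _
      rw [coeff_taylor_natDegree]
  have h1 := bilinear (fun n : ℕ => ee (x * ((Q.eval (n : ℤ) : ℤ) : ℝ)))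
    (fun n => (norm_ee _).le) B M hM1 key
  refine h1.trans ?_
  have h2 : (B : ℝ) * ((M : ℝ) ^ 2 * Real.exp (-(y ^ 21))) / (M : ℝ) ^ 2 = B * Real.exp (-(y ^ 21)) := by
    field_simp
  rw [h2]
  have hB0 : (0 : ℝ) < B := by rw [hB]; exact Real.exp_pos _
  have yp : ∀ a b : ℕ, a ≤ b → y ^ a ≤ y ^ b := fun a b hab => pow_le_pow_right₀ (by linarith) hab
  have h20 : (2 : ℝ) ^ 20 ≤ y ^ 20 := pow_le_pow_left₀ (by norm_num) hy2 20
  have h3 : Real.exp (-(y ^ 21)) ≤ Real.exp (-(y ^ 20)) / 4 := by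
    have h4 : y ^ 20 + 2 ≤ y ^ 21 := by
      have : 2 * y ^ 20 ≤ y ^ 21 := by
        calc 2 * y ^ 20 ≤ y * y ^ 20 := by gcongr
          _ = y ^ 21 := by ring
      norm_num at h20
      linarith
    have h5 : Real.exp (-(y ^ 21)) ≤ Real.exp (-(y ^ 20) + (-2)) := Real.exp_le_exp.2 (by linarith)
    rw [Real.exp_add] at h5
    have h6 : Real.exp (-2) ≤ 1 / 4 := by
      rw [Real.exp_neg, ← one_div]
      apply one_div_le_one_div_of_le (by norm_num)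
      have h7 : Real.exp 2 = Real.exp 1 * Real.exp 1 := by rw [← Real.exp_add]; norm_num
      rw [h7]
      have h8 : (2 : ℝ) ≤ Real.exp 1 := by
        have := Real.add_one_le_exp (1 : ℝ)
        linarith
      nlinarith
    calc _ ≤ Real.exp (-(y ^ 20)) * Real.exp (-2) := h5
      _ ≤ Real.exp (-(y ^ 20)) * (1 / 4) := by gcongr
      _ = _ := by ring
  have h4 : 2 * (M : ℝ) ^ 2 ≤ B * Real.exp (-(y ^ 20)) / 4 := by
    rw [hB, ← Real.exp_add]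
    have h5 : y ^ 70 / 2 + 3 ≤ y ^ 70 + -(y ^ 20) := by
      have h6 : 2 * (y ^ 20 + 3) ≤ y ^ 70 := by
        have h7 : (2 : ℝ) ^ 50 ≤ y ^ 50 := pow_le_pow_left₀ (by norm_num) hy2 50
        have h8 : (8 : ℝ) ≤ y ^ 50 := by
          norm_num at h7
          linarith
        norm_num at h20
        calc 2 * (y ^ 20 + 3) ≤ 8 * y ^ 20 := by linarith
          _ ≤ y ^ 50 * y ^ 20 := by gcongr
          _ = y ^ 70 := by ring
      linarith
    have h6 : Real.exp (y ^ 70 / 2) * Real.exp 3 ≤ Real.exp (y ^ 70 + -(y ^ 20)) := by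
      rw [← Real.exp_add]
      exact Real.exp_le_exp.2 h5
    have h7 : (8 : ℝ) ≤ Real.exp 3 := by
      have h8 : Real.exp 3 = Real.exp 1 * Real.exp 1 * Real.exp 1 := by
        rw [← Real.exp_add, ← Real.exp_add]; norm_num
      rw [h8]
      have h9 : (2 : ℝ) ≤ Real.exp 1 := by
        have := Real.add_one_le_exp (1 : ℝ)
        linarith
      have h10 : (4 : ℝ) ≤ Real.exp 1 * Real.exp 1 := by nlinarith
      nlinarith
    have h8 : Real.exp (y ^ 70 / 2) * 8 ≤ Real.exp (y ^ 70 / 2) * Real.exp 3 := by gcongr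
    linarith
  have h5 : B * Real.exp (-(y ^ 21)) ≤ B * (Real.exp (-(y ^ 20)) / 4) := by gcongr
  have h6 : 0 < B * Real.exp (-(y ^ 20)) := by positivity
  linarith

/-- Weyl sums of high degree with coefficients in `ℤ x` -/
theorem weyl {x c : ℝ} {τ : ℕ} (hc : 0 < c) (hc1 : c ≤ 1) (hx : FT x c τ) :
    ∀ᶠ B : ℕ in atTop, ∀ Q : ℤ[X], 1 ≤ Q.natDegree →
      (Q.natDegree : ℝ) ≤ (Real.log B) ^ (1 / 7 : ℝ) → |(Q.leadingCoeff : ℝ)| ≤ Real.log B →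
      ‖∑ b ∈ Finset.Icc 1 B, ee (x * ((Q.eval (b : ℤ) : ℤ) : ℝ))‖ ≤
        B * Real.exp (-((Real.log B) ^ (2 / 7 : ℝ))) := by
  have h1 : Tendsto (fun B : ℕ => (Real.log B) ^ (1 / 70 : ℝ)) atTop atTop :=
    (tendsto_rpow_atTop (by norm_num)).comp (Real.tendsto_log_atTop.comp tendsto_natCast_atTop_atTop)
  filter_upwards [h1.eventually (weyl_y hc hc1 hx), eventually_ge_atTop 3] with B hB hB3
  intro Q hQ1 hQ2 hQ3
  have hB0 : (0 : ℝ) < B := by exact_mod_cast (by omega : 0 < B)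
  have hlog : 0 ≤ Real.log B := Real.log_nonneg (by exact_mod_cast (by omega : 1 ≤ B))
  have e : ∀ n : ℕ, ((Real.log B) ^ (1 / 70 : ℝ)) ^ n = (Real.log B) ^ ((n : ℝ) / 70) := by
    intro n
    rw [← Real.rpow_natCast, ← Real.rpow_mul hlog]
    congr 1
    ring
  have h70 : ((Real.log B) ^ (1 / 70 : ℝ)) ^ 70 = Real.log B := by
    rw [e]
    norm_num
  have h10 : ((Real.log B) ^ (1 / 70 : ℝ)) ^ 10 = (Real.log B) ^ (1 / 7 : ℝ) := by
    rw [e]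
    norm_num
  have h20 : ((Real.log B) ^ (1 / 70 : ℝ)) ^ 20 = (Real.log B) ^ (2 / 7 : ℝ) := by
    rw [e]
    norm_num
  have h2 := hB B (by rw [h70, Real.exp_log hB0]) Q hQ1 (by rw [h10]; exact hQ2) (by rw [h70]; exact hQ3)
  rw [h20] at h2
  exact h2

end Pool.Agent.X121.AB
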